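import Pool.Agent.GM99.Gcs

/-!
# GM99/Kern: the kernels of C2.1 (GCS with tensor powers in the window, PSD for the bits of `x_i` and of `xi_t`, RAR)
-/

set_option autoImplicit false

namespace Pool.Agent.GM99

open Finset

variable {X Z : Type*} [Fintype X] [Fintype Z]

/-- the kernel `E_(om0,om1) (E_z prod_e f(om^e)(z))^(2q)` -/
noncomputable def kap {n : ℕ} (w : Fin n → X → ℝ) (u : Z → ℝ) (q : ℕ) (f : (Fin n → X) → Z → ℝ) : ℝ :=
  pm w fun x => pm w fun y => (∑ z, u z * ∏ e : Fin n → Bool, f (mixp x y e) z) ^ (2 * q)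

theorem kap_nonneg {n : ℕ} (w : Fin n → X → ℝ) (hw : ∀ i x, 0 ≤ w i x) (u : Z → ℝ) (q : ℕ)
    (f : (Fin n → X) → Z → ℝ) : 0 ≤ kap w u q f := by
  unfold kap pm
  refine Finset.sum_nonneg fun x _ => mul_nonneg (Finset.prod_nonneg fun i _ => hw i _) ?_
  refine Finset.sum_nonneg fun y _ => mul_nonneg (Finset.prod_nonneg fun i _ => hw i _) ?_
  exact (even_two_mul q).pow_nonneg _

theorem pm_add {n : ℕ} (w : Fin n → X → ℝ) (f g : (Fin n → X) → ℝ) :
    pm w (fun x => f x + g x) = pm w f + pm w g := by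
  unfold pm
  rw [← Finset.sum_add_distrib]
  exact Finset.sum_congr rfl fun x _ => by ring

/-- tensor power of a mean -/
theorem sum_pow_eq_pm (u : Z → ℝ) (g : Z → ℝ) (N : ℕ) :
    (∑ z, u z * g z) ^ N = pm (fun _ : Fin N => u) fun zz => ∏ j, g (zz j) := by
  unfold pm
  have h := Finset.prod_univ_sum (fun _ : Fin N => (univ : Finset Z)) (fun _ z => u z * g z)
  rw [Fintype.piFinset_univ] at h
  rw [Finset.prod_const, Finset.card_univ, Fintype.card_fin] at h
  rw [h]
  refine Finset.sum_congr rfl fun zz _ => ?_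
  rw [Finset.prod_mul_distrib]

theorem pm_comm {m n : ℕ} (v : Fin m → Z → ℝ) (w : Fin n → X → ℝ) (f : (Fin m → Z) → (Fin n → X) → ℝ) :
    (pm v fun z => pm w fun x => f z x) = pm w fun x => pm v fun z => f z x := by
  unfold pm
  simp only [Finset.mul_sum]
  rw [Finset.sum_comm]
  refine Finset.sum_congr rfl fun x _ => Finset.sum_congr rfl fun z _ => ?_
  ring

/-- the kernel as a mean of box forms -/
theorem kap_eq_pm_box {n : ℕ} (w : Fin n → X → ℝ) (u : Z → ℝ) (q : ℕ) (f : (Fin n → X) → Z → ℝ) :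
    kap w u q f = pm (fun _ : Fin (2 * q) => u) fun zz => box w fun x => ∏ j, f x (zz j) := by
  unfold kap box
  rw [pm_comm (fun _ : Fin (2 * q) => u) w]
  refine pm_congr _ fun x => ?_
  rw [pm_comm (fun _ : Fin (2 * q) => u) w]
  refine pm_congr _ fun y => ?_
  rw [sum_pow_eq_pm]
  refine pm_congr _ fun zz => ?_
  rw [Finset.prod_comm]

/-- (GCS) of C2.1: product tests of the moments of the window mean -/
theorem gcs_z {n : ℕ} (w : Fin n → X → ℝ) (hw : ∀ i x, 0 ≤ w i x) (hs : ∀ i, ∑ x, w i x = 1)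
    (u : Z → ℝ) (hu : ∀ z, 0 ≤ u z) (hu1 : ∑ z, u z = 1) (q : ℕ)
    (f : (Fin n → X) → Z → ℝ) (H : Fin n → (Fin n → X) → Z → ℝ) (hH : ∀ i x z, |H i x z| ≤ 1)
    (hI : ∀ i x y, (∀ j, j ≠ i → x j = y j) → ∀ z, H i x z = H i y z) :
    (pm w fun x => (∑ z, u z * (f x z * ∏ i, H i x z)) ^ (2 * q)) ^ (2 ^ n) ≤ kap w u q f := by
  have h1 : (pm w fun x => (∑ z, u z * (f x z * ∏ i, H i x z)) ^ (2 * q)) =
      pm (fun _ : Fin (2 * q) => u) fun zz => pm w fun x => (∏ j, f x (zz j)) * ∏ i, ∏ j, H i x (zz j) := by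
    rw [pm_comm]
    refine pm_congr _ fun x => ?_
    rw [sum_pow_eq_pm]
    refine pm_congr _ fun zz => ?_
    rw [Finset.prod_mul_distrib]
    congr 1
    rw [Finset.prod_comm]
  rw [h1, kap_eq_pm_box]
  refine (jensen_pm _ (fun _ => hu) (fun _ => hu1) _ n).trans (pm_mono _ (fun _ => hu) fun zz => ?_)
  refine gcs n w hw hs _ _ ?_ ?_
  · intro i x
    rw [Finset.abs_prod]
    exact Finset.prod_le_one (fun _ _ => abs_nonneg _) fun j _ => hH _ _ _
  · intro i x y h
    exact Finset.prod_congr rfl fun j _ => hI i x y h _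

/-- Markov form of (GCS) -/
theorem gcs_markov {n : ℕ} (w : Fin n → X → ℝ) (hw : ∀ i x, 0 ≤ w i x) (hs : ∀ i, ∑ x, w i x = 1)
    (u : Z → ℝ) (hu : ∀ z, 0 ≤ u z) (hu1 : ∑ z, u z = 1) (q : ℕ)
    (f : (Fin n → X) → Z → ℝ) (H : Fin n → (Fin n → X) → Z → ℝ) (hH : ∀ i x z, |H i x z| ≤ 1)
    (hI : ∀ i x y, (∀ j, j ≠ i → x j = y j) → ∀ z, H i x z = H i y z) (s : ℝ) (hs0 : 0 ≤ s) :
    (s ^ (2 * q) * pm w fun x => if s ≤ |∑ z, u z * (f x z * ∏ i, H i x z)| then (1 : ℝ) else 0) ^ (2 ^ n) ≤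
      kap w u q f := by
  refine le_trans ?_ (gcs_z w hw hs u hu hu1 q f H hH hI)
  refine pow_le_pow_left₀ ?_ ?_ _
  · refine mul_nonneg (pow_nonneg hs0 _) (Finset.sum_nonneg fun x _ => mul_nonneg (Finset.prod_nonneg fun i _ => hw i _) ?_)
    beta_reduce
    split_ifs <;> norm_num
  · rw [← pm_mul_left]
    refine pm_mono _ hw fun x => ?_
    split_ifs with h
    · rw [mul_one, ← (even_two_mul q).pow_abs (∑ z, u z * (f x z * ∏ i, H i x z))]
      exact pow_le_pow_left₀ hs0 h _
    · rw [mul_zero]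
      exact (even_two_mul q).pow_nonneg _

/-! ## splitting off one coordinate -/

theorem pm_insert {n : ℕ} (w : Fin (n + 1) → X → ℝ) (p : Fin (n + 1)) (f : (Fin (n + 1) → X) → ℝ) :
    pm w f = ∑ a : X, w p a * pm (fun i : Fin n => w (p.succAbove i)) (fun x => f (p.insertNth a x)) := by
  unfold pm
  rw [← (Fin.insertNthEquiv (fun _ => X) p).sum_comp, Fintype.sum_prod_type]
  refine Finset.sum_congr rfl fun a _ => ?_
  rw [Finset.mul_sum]
  refine Finset.sum_congr rfl fun x _ => ?_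
  simp only [Fin.insertNthEquiv, Equiv.coe_fn_mk, Fin.prod_univ_succAbove _ p, Fin.insertNth_apply_same,
    Fin.insertNth_apply_succAbove]
  ring

omit [Fintype X] in
theorem mixp_insert {n : ℕ} (p : Fin (n + 1)) (a b : X) (x y : Fin n → X) (c : Bool) (e : Fin n → Bool) :
    mixp (p.insertNth (α := fun _ => X) a x) (p.insertNth (α := fun _ => X) b y)
      (p.insertNth (α := fun _ => Bool) c e) =
      p.insertNth (α := fun _ => X) (if c then b else a) (mixp x y e) := by
  funext i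
  refine Fin.succAboveCases p ?_ (fun i => ?_) i
  · simp [mixp]
  · simp [mixp]

/-- the box form as a mean of squares -/
theorem box_insert {n : ℕ} (w : Fin (n + 1) → X → ℝ) (p : Fin (n + 1)) (Φ : (Fin (n + 1) → X) → ℝ) :
    box w Φ = pm (fun i : Fin n => w (p.succAbove i)) fun x => pm (fun i : Fin n => w (p.succAbove i)) fun y =>
      (∑ a, w p a * ∏ e : Fin n → Bool, Φ (p.insertNth a (mixp x y e))) ^ 2 := by
  set w' : Fin n → X → ℝ := fun i => w (p.succAbove i) with hw'
  have h1 : ∀ x y, (∑ a, w p a * ∏ e : Fin n → Bool, Φ (p.insertNth a (mixp x y e))) ^ 2 =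
      ∑ a, ∑ b, (w p a * w p b) * ((∏ e : Fin n → Bool, Φ (p.insertNth a (mixp x y e))) *
        ∏ e : Fin n → Bool, Φ (p.insertNth b (mixp x y e))) := by
    intro x y
    rw [sq, Finset.sum_mul_sum]
    exact Finset.sum_congr rfl fun a _ => Finset.sum_congr rfl fun b _ => by ring
  have h2 : (pm w' fun x => pm w' fun y => (∑ a, w p a * ∏ e : Fin n → Bool, Φ (p.insertNth a (mixp x y e))) ^ 2) =
      ∑ a, ∑ b, (w p a * w p b) * pm w' fun x => pm w' fun y =>
        ((∏ e : Fin n → Bool, Φ (p.insertNth a (mixp x y e))) *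
        ∏ e : Fin n → Bool, Φ (p.insertNth b (mixp x y e))) := by
    rw [pm_congr w' fun x => (pm_congr w' fun y => h1 x y)]
    simp only [pm_sum, pm_mul_left]
  rw [h2]
  unfold box
  rw [pm_insert w p]
  refine Finset.sum_congr rfl fun a _ => ?_
  have h3 : ∀ x : Fin n → X, (pm w fun y => ∏ e : Fin (n + 1) → Bool, Φ (mixp (p.insertNth a x) y e)) =
      ∑ b, w p b * pm w' fun y => ((∏ e : Fin n → Bool, Φ (p.insertNth a (mixp x y e))) *
        ∏ e : Fin n → Bool, Φ (p.insertNth b (mixp x y e))) := by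
    intro x
    rw [pm_insert w p]
    refine Finset.sum_congr rfl fun b _ => ?_
    congr 1
    refine pm_congr _ fun y => ?_
    rw [← (Fin.insertNthEquiv (fun _ => Bool) p).prod_comp, Fintype.prod_prod_type, Fintype.prod_bool, mul_comm]
    simp only [Fin.insertNthEquiv, Equiv.coe_fn_mk, mixp_insert]
    simp
  rw [pm_congr w' h3]
  simp only [pm_sum, pm_mul_left]
  rw [Finset.mul_sum]
  exact Finset.sum_congr rfl fun b _ => by ring

/-- (PSD) (i): one bit of one coordinate, bias `be` -/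
theorem box_bit {n : ℕ} (w : Fin n → X → ℝ) (hw : ∀ i x, 0 ≤ w i x) (p : Fin n) (w1 w2 : X → ℝ)
    (h12 : ∀ x, w p x = (w1 x + w2 x) / 2) (be : ℝ) (Φ : (Fin n → X) → ℝ) :
    (1 - be ^ 2) * box w Φ ≤ (1 + be) / 2 * box (Function.update w p w1) Φ +
      (1 - be) / 2 * box (Function.update w p w2) Φ := by
  obtain _ | n := n
  · exact p.elim0
  have hoff : ∀ v : X → ℝ, (fun i : Fin n => Function.update w p v (p.succAbove i)) =
      fun i => w (p.succAbove i) := by
    intro v
    funext i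
    rw [Function.update_of_ne (Fin.succAbove_ne p i)]
  rw [box_insert w p, box_insert (Function.update w p w1) p, box_insert (Function.update w p w2) p,
    hoff, hoff, Function.update_self, Function.update_self]
  set w' : Fin n → X → ℝ := fun i => w (p.succAbove i) with hw'
  have hw0 : ∀ i x, 0 ≤ w' i x := fun i x => hw _ _
  have hin : ∀ x : Fin n → X, (1 - be ^ 2) * (pm w' fun y =>
      (∑ a, w p a * ∏ e : Fin n → Bool, Φ (p.insertNth a (mixp x y e))) ^ 2) ≤
      (1 + be) / 2 * (pm w' fun y => (∑ a, w1 a * ∏ e : Fin n → Bool, Φ (p.insertNth a (mixp x y e))) ^ 2) +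
      (1 - be) / 2 * (pm w' fun y => (∑ a, w2 a * ∏ e : Fin n → Bool, Φ (p.insertNth a (mixp x y e))) ^ 2) := by
    intro x
    rw [← pm_mul_left, ← pm_mul_left, ← pm_mul_left, ← pm_add]
    refine pm_mono _ hw0 fun y => ?_
    set S1 := ∑ a, w1 a * ∏ e : Fin n → Bool, Φ (p.insertNth a (mixp x y e)) with hS1
    set S2 := ∑ a, w2 a * ∏ e : Fin n → Bool, Φ (p.insertNth a (mixp x y e)) with hS2
    have hS : ∑ a, w p a * ∏ e : Fin n → Bool, Φ (p.insertNth a (mixp x y e)) = (S1 + S2) / 2 := by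
      rw [hS1, hS2, ← Finset.sum_add_distrib, Finset.sum_div]
      exact Finset.sum_congr rfl fun a _ => by rw [h12]; ring
    rw [hS]
    nlinarith [sq_nonneg ((S1 - S2) / 2 + be * ((S1 + S2) / 2))]
  rw [← pm_mul_left, ← pm_mul_left, ← pm_mul_left, ← pm_add]
  exact pm_mono _ hw0 hin

/-- (PSD) (i) for the kernel -/
theorem kap_bit {n : ℕ} (w : Fin n → X → ℝ) (hw : ∀ i x, 0 ≤ w i x) (p : Fin n) (w1 w2 : X → ℝ)
    (h12 : ∀ x, w p x = (w1 x + w2 x) / 2) (be : ℝ) (u : Z → ℝ) (hu : ∀ z, 0 ≤ u z) (q : ℕ)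
    (f : (Fin n → X) → Z → ℝ) :
    (1 - be ^ 2) * kap w u q f ≤ (1 + be) / 2 * kap (Function.update w p w1) u q f +
      (1 - be) / 2 * kap (Function.update w p w2) u q f := by
  rw [kap_eq_pm_box, kap_eq_pm_box, kap_eq_pm_box, ← pm_mul_left, ← pm_mul_left, ← pm_mul_left, ← pm_add]
  exact pm_mono _ (fun _ => hu) fun zz => box_bit w hw p w1 w2 h12 be _

/-- (PSD) (ii): the bit of the window, bias `be` -/
theorem kap_win {n : ℕ} (w : Fin n → X → ℝ) (hw : ∀ i x, 0 ≤ w i x) (u u1 u2 : Z → ℝ)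
    (h12 : ∀ z, u z = (u1 z + u2 z) / 2) (be : ℝ) (hbe : |be| ≤ 1) (q : ℕ) (f : (Fin n → X) → Z → ℝ) :
    (1 - be ^ 2) ^ q * kap w u q f ≤ (1 + be) / 2 * kap w u1 q f + (1 - be) / 2 * kap w u2 q f := by
  unfold kap
  rw [← pm_mul_left, ← pm_mul_left, ← pm_mul_left, ← pm_add]
  refine pm_mono _ hw fun x => ?_
  rw [← pm_mul_left, ← pm_mul_left, ← pm_mul_left, ← pm_add]
  refine pm_mono _ hw fun y => ?_
  set S1 := ∑ z, u1 z * ∏ e : Fin n → Bool, f (mixp x y e) z with hS1
  set S2 := ∑ z, u2 z * ∏ e : Fin n → Bool, f (mixp x y e) z with hS2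
  have hS : ∑ z, u z * ∏ e : Fin n → Bool, f (mixp x y e) z = (S1 + S2) / 2 := by
    rw [hS1, hS2, ← Finset.sum_add_distrib, Finset.sum_div]
    exact Finset.sum_congr rfl fun a _ => by rw [h12]; ring
  rw [hS]
  obtain ⟨hb1, hb2⟩ := abs_le.1 hbe
  have hJ := Real.pow_arith_mean_le_arith_mean_pow (univ : Finset Bool)
    (fun b => if b then (1 + be) / 2 else (1 - be) / 2) (fun b => if b then S1 ^ 2 else S2 ^ 2)
    (fun b _ => by cases b <;> simp <;> linarith) (by simp; ring) (fun b _ => by cases b <;> simp <;> positivity) q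
  simp only [Fintype.sum_bool, if_true, Bool.false_eq_true, if_false] at hJ
  rw [pow_mul, pow_mul, pow_mul, ← mul_pow]
  refine le_trans (pow_le_pow_left₀ ?_ ?_ q) hJ
  · have : be ^ 2 ≤ 1 := by nlinarith
    exact mul_nonneg (by linarith) (sq_nonneg _)
  · nlinarith [sq_nonneg ((S1 - S2) / 2 + be * ((S1 + S2) / 2))]

/-! ## (RAR) -/

/-- the product of the mixed factors other than `e = 0` as a product of functions which miss one coordinate -/
theorem prod_first {n : ℕ} (g : (Fin n → Bool) → ℝ) :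
    ∏ e : Fin n → Bool, g e = g (fun _ => false) * ∏ i : Fin n, ∏ e : Fin n → Bool,
      if e i = true ∧ ∀ j < i, e j = false then g e else 1 := by
  rw [Finset.prod_comm]
  have h1 : ∀ e : Fin n → Bool, (∏ i : Fin n, if e i = true ∧ ∀ j < i, e j = false then g e else 1) =
      if e = fun _ => false then 1 else g e := by
    intro e
    by_cases he : e = fun _ => false
    · rw [if_pos he]
      refine Finset.prod_eq_one fun i _ => ?_
      rw [if_neg]
      rintro ⟨h2, _⟩
      rw [he] at h2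
      simp at h2
    · rw [if_neg he]
      have hne : (univ.filter fun i => e i = true).Nonempty := by
        by_contra h2
        rw [Finset.not_nonempty_iff_eq_empty] at h2
        refine he (funext fun i => ?_)
        have h3 : i ∉ univ.filter fun i => e i = true := by rw [h2]; exact Finset.notMem_empty _
        simpa using h3
      set i0 := (univ.filter fun i => e i = true).min' hne with hi0
      have hmem := Finset.min'_mem _ hne
      rw [← hi0, Finset.mem_filter] at hmem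
      have hmin : ∀ j < i0, e j = false := by
        intro j hj
        by_contra h3
        have h4 : j ∈ univ.filter fun i => e i = true := by
          rw [Finset.mem_filter]
          exact ⟨Finset.mem_univ _, by simpa using h3⟩
        exact absurd (Finset.min'_le _ _ h4) (not_le.2 hj)
      rw [Finset.prod_eq_single i0]
      · rw [if_pos ⟨hmem.2, hmin⟩]
      · intro i _ hi
        rw [if_neg]
        rintro ⟨h5, h6⟩
        rcases lt_or_gt_of_ne hi with h7 | h7
        · rw [hmin i h7] at h5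
          exact absurd h5 (by simp)
        · rw [h6 i0 h7] at hmem
          exact absurd hmem.2 (by simp)
      · intro h8
        exact absurd (Finset.mem_univ _) h8
  rw [Finset.prod_congr rfl fun e _ => h1 e]
  rw [← Finset.mul_prod_erase univ g (Finset.mem_univ fun _ => false)]
  congr 1
  rw [← Finset.mul_prod_erase univ _ (Finset.mem_univ (fun _ : Fin n => false)), if_pos rfl, one_mul]
  refine Finset.prod_congr rfl fun e he => ?_
  rw [if_neg (Finset.ne_of_mem_erase he)]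

/-- (RAR) of C2.1: hot values against an average of the `Fhat` are rare -/
theorem rar {n : ℕ} {ι B : Type*} (w : Fin n → X → ℝ) (hw : ∀ i x, 0 ≤ w i x) (hs : ∀ i, ∑ x, w i x = 1)
    (u : Z → ℝ) (hu : ∀ z, 0 ≤ u z) (hu1 : ∑ z, u z = 1) (q : ℕ)
    (F : ι → (Fin n → X) → Z → ℝ) (hF : ∀ κ x z, |F κ x z| ≤ 1)
    (G : B → (Fin n → X) → Z → ℝ) (hG : ∀ b x z, |G b x z| ≤ 1)
    (I : Finset ι) (p : ι → ℝ) (hp : ∀ κ ∈ I, 0 ≤ p κ) (hp1 : ∑ κ ∈ I, p κ = 1) (β : Finset B)
    (eps0 th r' : ℝ) (hr : 2 * eps0 ^ (2 * q) ≤ r') (hr0 : 0 < r')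
    (hPT : ∀ (v0 : (Fin n → X) → Z → ℝ) (v : Fin n → B → (Fin n → X) → Z → ℝ),
      (∀ x z, |v0 x z| ≤ 1) → (∀ i b x z, |v i b x z| ≤ 1) →
      (∀ i b x y, (∀ j, j ≠ i → x j = y j) → ∀ z, v i b x z = v i b y z) →
      ∑ b ∈ β, pm w (fun x => if eps0 < |∑ z, u z * (G b x z * (v0 x z * ∏ i, v i b x z))| then (1 : ℝ) else 0) ≤
        th * (β.card : ℝ)) :
    ((β.filter fun b => r' ≤ ∑ κ ∈ I, p κ * kap w u q (fun x z => F κ x z * G b x z)).card : ℝ) ≤
      2 * th / r' * (β.card : ℝ) := by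
  classical
  -- the window mean
  set Y : ι → B → (Fin n → X) → (Fin n → X) → ℝ := fun κ b x y =>
    ∑ z, u z * ∏ e : Fin n → Bool, (F κ (mixp x y e) z * G b (mixp x y e) z) with hY
  set big : ι → B → ℝ := fun κ b => pm w fun y => pm w fun x => if eps0 < |Y κ b x y| then (1 : ℝ) else 0 with hbig
  have hFG : ∀ κ b x z, |F κ x z * G b x z| ≤ 1 := fun κ b x z => by
    rw [abs_mul]
    exact mul_le_one₀ (hF _ _ _) (abs_nonneg _) (hG _ _ _)
  have hY1 : ∀ κ b x y, |Y κ b x y| ≤ 1 := by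
    intro κ b x y
    rw [hY]
    refine (Finset.abs_sum_le_sum_abs _ _).trans ?_
    rw [← hu1]
    refine Finset.sum_le_sum fun z _ => ?_
    rw [abs_mul, abs_of_nonneg (hu z), Finset.abs_prod]
    exact mul_le_of_le_one_right (hu z) (Finset.prod_le_one (fun _ _ => abs_nonneg _) fun e _ => hFG _ _ _ _)
  have hk : ∀ κ b, kap w u q (fun x z => F κ x z * G b x z) ≤ eps0 ^ (2 * q) + big κ b := by
    intro κ b
    have h1 : kap w u q (fun x z => F κ x z * G b x z) ≤
        pm w fun x => pm w fun y => (eps0 ^ (2 * q) + if eps0 < |Y κ b x y| then (1 : ℝ) else 0) := by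
      unfold kap
      refine pm_mono _ hw fun x => pm_mono _ hw fun y => ?_
      rw [← (even_two_mul q).pow_abs]
      split_ifs with h2
      · have := pow_le_one₀ (n := 2 * q) (abs_nonneg _) (hY1 κ b x y)
        have h3 : 0 ≤ eps0 ^ (2 * q) := (even_two_mul q).pow_nonneg _
        linarith
      · rw [add_zero]
        exact pow_le_pow_left₀ (abs_nonneg _) (not_lt.1 h2) _
    refine h1.trans (le_of_eq ?_)
    rw [pm_congr w fun x => pm_add w (fun _ => eps0 ^ (2 * q)) _, pm_add]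
    congr 1
    · rw [pm_congr w fun x => pm_const w hs _, pm_const w hs]
    · exact pm_comm w w fun x y => if eps0 < |Y κ b x y| then (1 : ℝ) else 0
  have hbig0 : ∀ κ, ∑ b ∈ β, big κ b ≤ th * (β.card : ℝ) := by
    intro κ
    rw [hbig]
    simp only
    rw [← pm_sum]
    have hc : th * (β.card : ℝ) = pm w fun _ => th * (β.card : ℝ) := (pm_const w hs _).symm
    rw [hc]
    refine pm_mono _ hw fun y => ?_
    have h4 := hPT (fun x z => F κ x z) (fun i b x z => ∏ e : Fin n → Bool,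
      if e i = true ∧ ∀ j < i, e j = false then F κ (mixp x y e) z * G b (mixp x y e) z else 1)
      (fun x z => hF _ _ _) ?_ ?_
    · refine le_trans (Finset.sum_le_sum fun b _ => pm_mono _ hw fun x => ?_) h4
      have h5 : Y κ b x y = ∑ z, u z * (G b x z * (F κ x z * ∏ i : Fin n, ∏ e : Fin n → Bool,
          if e i = true ∧ ∀ j < i, e j = false then F κ (mixp x y e) z * G b (mixp x y e) z else 1)) := by
        rw [hY]
        refine Finset.sum_congr rfl fun z _ => ?_
        rw [prod_first]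
        have h6 : mixp x y (fun _ => false) = x := by
          funext i
          simp [mixp]
        rw [h6]
        ring
      rw [h5]
    · intro i b x z
      rw [Finset.abs_prod]
      refine Finset.prod_le_one (fun _ _ => abs_nonneg _) fun e _ => ?_
      split_ifs
      · exact hFG _ _ _ _
      · simp
    · intro i b x x' hx z
      refine Finset.prod_congr rfl fun e _ => ?_
      by_cases h7 : e i = true ∧ ∀ j < i, e j = false
      · rw [if_pos h7, if_pos h7]
        have h8 : mixp x y e = mixp x' y e := by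
          funext j
          by_cases hj : j = i
          · rw [hj]
            simp [mixp, h7.1]
          · simp only [mixp]
            rw [hx j hj]
        rw [h8]
      · rw [if_neg h7, if_neg h7]
  have hT : ∀ b, ∑ κ ∈ I, p κ * kap w u q (fun x z => F κ x z * G b x z) ≤ eps0 ^ (2 * q) + ∑ κ ∈ I, p κ * big κ b := by
    intro b
    calc ∑ κ ∈ I, p κ * kap w u q (fun x z => F κ x z * G b x z) ≤ ∑ κ ∈ I, p κ * (eps0 ^ (2 * q) + big κ b) :=
          Finset.sum_le_sum fun κ hκ => mul_le_mul_of_nonneg_left (hk κ b) (hp κ hκ)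
      _ = eps0 ^ (2 * q) + ∑ κ ∈ I, p κ * big κ b := by
          simp only [mul_add, Finset.sum_add_distrib]
          rw [← Finset.sum_mul, hp1, one_mul]
  have hbn : ∀ κ b, 0 ≤ big κ b := by
    intro κ b
    rw [hbig]
    simp only
    refine Finset.sum_nonneg fun y _ => mul_nonneg (Finset.prod_nonneg fun i _ => hw i _) ?_
    refine Finset.sum_nonneg fun x _ => mul_nonneg (Finset.prod_nonneg fun i _ => hw i _) ?_
    beta_reduce
    split_ifs <;> norm_num
  have hmain : ((β.filter fun b => r' ≤ ∑ κ ∈ I, p κ * kap w u q (fun x z => F κ x z * G b x z)).card : ℝ) * (r' / 2) ≤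
      th * (β.card : ℝ) := by
    calc ((β.filter fun b => r' ≤ ∑ κ ∈ I, p κ * kap w u q (fun x z => F κ x z * G b x z)).card : ℝ) * (r' / 2)
        = ∑ b ∈ β.filter (fun b => r' ≤ ∑ κ ∈ I, p κ * kap w u q (fun x z => F κ x z * G b x z)), r' / 2 := by
          rw [Finset.sum_const, nsmul_eq_mul]
      _ ≤ ∑ b ∈ β.filter (fun b => r' ≤ ∑ κ ∈ I, p κ * kap w u q (fun x z => F κ x z * G b x z)), ∑ κ ∈ I, p κ * big κ b := by
          refine Finset.sum_le_sum fun b hb => ?_
          have h9 := (Finset.mem_filter.1 hb).2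
          have h10 := hT b
          linarith
      _ ≤ ∑ b ∈ β, ∑ κ ∈ I, p κ * big κ b :=
          Finset.sum_le_sum_of_subset_of_nonneg (Finset.filter_subset _ _) fun b _ _ =>
            Finset.sum_nonneg fun κ hκ => mul_nonneg (hp κ hκ) (hbn κ b)
      _ = ∑ κ ∈ I, p κ * ∑ b ∈ β, big κ b := by
          rw [Finset.sum_comm]
          simp only [Finset.mul_sum]
      _ ≤ ∑ κ ∈ I, p κ * (th * (β.card : ℝ)) :=
          Finset.sum_le_sum fun κ hκ => mul_le_mul_of_nonneg_left (hbig0 κ) (hp κ hκ)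
      _ = th * (β.card : ℝ) := by rw [← Finset.sum_mul, hp1, one_mul]
  rw [div_mul_eq_mul_div, le_div_iff₀ hr0]
  linarith

/-! ## the Hilbert form -/

/-- points of `Omhat` -/
abbrev Oh (X Z : Type*) (n q : ℕ) := ((Fin n → X) × (Fin n → X)) × (Fin (2 * q) → Z)

/-- weight of a point of `Omhat` -/
noncomputable def wh {n : ℕ} (w : Fin n → X → ℝ) (u : Z → ℝ) (q : ℕ) (ω : Oh X Z n q) : ℝ :=
  ((∏ i, w i (ω.1.1 i)) * (∏ i, w i (ω.1.2 i))) * ∏ j, u (ω.2 j)

/-- `Fhat` -/
noncomputable def hat {n : ℕ} (q : ℕ) (f : (Fin n → X) → Z → ℝ) (ω : Oh X Z n q) : ℝ :=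
  ∏ e : Fin n → Bool, ∏ j, f (mixp ω.1.1 ω.1.2 e) (ω.2 j)

/-- inner product of `L2(Omhat)` -/
noncomputable def ip {n : ℕ} (w : Fin n → X → ℝ) (u : Z → ℝ) (q : ℕ) (g h : Oh X Z n q → ℝ) : ℝ :=
  ∑ ω, wh w u q ω * (g ω * h ω)

omit [Fintype X] [Fintype Z] in
theorem hat_mul {n : ℕ} (q : ℕ) (f g : (Fin n → X) → Z → ℝ) (ω : Oh X Z n q) :
    hat q (fun x z => f x z * g x z) ω = hat q f ω * hat q g ω := by
  unfold hat
  simp only [Finset.prod_mul_distrib]

omit [Fintype X] [Fintype Z] in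
theorem hat_abs {n : ℕ} (q : ℕ) (f : (Fin n → X) → Z → ℝ) (hf : ∀ x z, |f x z| ≤ 1) (ω : Oh X Z n q) :
    |hat q f ω| ≤ 1 := by
  unfold hat
  rw [Finset.abs_prod]
  refine Finset.prod_le_one (fun _ _ => abs_nonneg _) fun e _ => ?_
  rw [Finset.abs_prod]
  exact Finset.prod_le_one (fun _ _ => abs_nonneg _) fun e _ => hf _ _

theorem sum_wh {n : ℕ} (w : Fin n → X → ℝ) (u : Z → ℝ) (q : ℕ) (g : Oh X Z n q → ℝ) :
    ∑ ω, wh w u q ω * g ω = pm w fun x => pm w fun y => pm (fun _ : Fin (2 * q) => u) fun zz => g ((x, y), zz) := by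
  unfold wh pm
  rw [Fintype.sum_prod_type, Fintype.sum_prod_type]
  refine Finset.sum_congr rfl fun x _ => ?_
  rw [Finset.mul_sum]
  refine Finset.sum_congr rfl fun y _ => ?_
  rw [Finset.mul_sum, Finset.mul_sum]
  refine Finset.sum_congr rfl fun zz _ => ?_
  ring

/-- the kernel is the inner product of the hats -/
theorem ip_hat {n : ℕ} (w : Fin n → X → ℝ) (u : Z → ℝ) (q : ℕ) (f g : (Fin n → X) → Z → ℝ) :
    ip w u q (hat q f) (hat q g) = kap w u q fun x z => f x z * g x z := by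
  unfold ip
  rw [sum_wh]
  unfold kap
  refine pm_congr _ fun x => pm_congr _ fun y => ?_
  rw [sum_pow_eq_pm]
  refine pm_congr _ fun zz => ?_
  rw [← hat_mul]
  unfold hat
  rw [Finset.prod_comm]

end Pool.Agent.GM99
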