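import Pool.Agent.GM99.KernC

/-!
# GM99/Split: Hilbert part of C2.2 (a), (b): means of classes, energy of a split, violating sets, saturation
-/

set_option autoImplicit false

namespace Pool.Agent.GM99

open Finset

section Hilb

variable {V E : Type*} [NormedAddCommGroup E] [InnerProductSpace ℝ E]

/-- mean of the vectors over a class (`0` for the empty class) -/
noncomputable def mS (Φ : V → E) (S : Finset V) : E := (S.card : ℝ)⁻¹ • ∑ a ∈ S, Φ a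

/-- mass times squared norm of the mean -/
noncomputable def eS (Φ : V → E) (S : Finset V) : ℝ := (S.card : ℝ) * ‖mS Φ S‖ ^ 2

theorem eS_nonneg (Φ : V → E) (S : Finset V) : 0 ≤ eS Φ S := mul_nonneg (Nat.cast_nonneg _) (sq_nonneg _)

theorem card_smul_mS (Φ : V → E) (S : Finset V) : (S.card : ℝ) • mS Φ S = ∑ a ∈ S, Φ a := by
  unfold mS
  rcases S.eq_empty_or_nonempty with rfl | hS
  · simp
  · have h : (S.card : ℝ) ≠ 0 := Nat.cast_ne_zero.2 hS.card_pos.ne'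
    rw [smul_smul, mul_inv_cancel₀ h, one_smul]

theorem norm_mS_le (Φ : V → E) (S : Finset V) (B : ℝ) (hB : 0 ≤ B) (h : ∀ a ∈ S, ‖Φ a‖ ≤ B) : ‖mS Φ S‖ ≤ B := by
  unfold mS
  rw [norm_smul, norm_inv, Real.norm_natCast]
  rcases S.eq_empty_or_nonempty with rfl | hS
  · simpa using hB
  · have h0 : (0 : ℝ) < S.card := Nat.cast_pos.2 hS.card_pos
    rw [inv_mul_le_iff₀ h0]
    refine (norm_sum_le _ _).trans ?_
    refine (Finset.sum_le_sum h).trans ?_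
    rw [Finset.sum_const, nsmul_eq_mul]

theorem eS_le (Φ : V → E) (S : Finset V) (h : ∀ a ∈ S, ‖Φ a‖ ≤ 1) : eS Φ S ≤ S.card := by
  unfold eS
  have h1 := norm_mS_le Φ S 1 zero_le_one h
  have h2 : ‖mS Φ S‖ ^ 2 ≤ 1 := pow_le_one₀ (norm_nonneg _) h1
  exact mul_le_of_le_one_right (Nat.cast_nonneg _) h2

/-- the energy of a class as an inner product of two independent members -/
theorem eS_eq (Φ : V → E) (S : Finset V) :
    (S.card : ℝ) * eS Φ S = ∑ a ∈ S, ∑ b ∈ S, inner ℝ (Φ a) (Φ b) := by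
  unfold eS
  have h1 : ∑ a ∈ S, ∑ b ∈ S, inner ℝ (Φ a) (Φ b) = inner ℝ (∑ a ∈ S, Φ a) (∑ b ∈ S, Φ b) := by
    rw [sum_inner]
    exact Finset.sum_congr rfl fun a _ => by rw [inner_sum]
  rw [h1, ← card_smul_mS, real_inner_smul_left, real_inner_smul_right, real_inner_self_eq_norm_sq]

theorem inner_mS_left (Φ : V → E) (S : Finset V) (y : E) :
    inner ℝ (mS Φ S) y = (S.card : ℝ)⁻¹ * ∑ a ∈ S, inner ℝ (Φ a) y := by
  unfold mS
  rw [real_inner_smul_left, sum_inner]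

theorem inner_mS_right (Φ : V → E) (S : Finset V) (y : E) :
    inner ℝ y (mS Φ S) = (S.card : ℝ)⁻¹ * ∑ a ∈ S, inner ℝ y (Φ a) := by
  unfold mS
  rw [real_inner_smul_right, inner_sum]

variable [DecidableEq V]

theorem card_split {S T : Finset V} (hT : T ⊆ S) : ((S \ T).card : ℝ) + T.card = S.card := by
  rw [← Nat.cast_add, Finset.card_sdiff_add_card_eq_card hT]

theorem mS_split (Φ : V → E) {S T : Finset V} (hT : T ⊆ S) :
    (S.card : ℝ) • mS Φ S = (T.card : ℝ) • mS Φ T + ((S \ T).card : ℝ) • mS Φ (S \ T) := by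
  rw [card_smul_mS, card_smul_mS, card_smul_mS, add_comm, Finset.sum_sdiff hT]

/-- exact change of the energy at a split -/
theorem eS_split (Φ : V → E) {S T : Finset V} (hT : T ⊆ S) :
    eS Φ T + eS Φ (S \ T) = eS Φ S + ((T.card : ℝ) * ‖mS Φ T - mS Φ S‖ ^ 2 +
      ((S \ T).card : ℝ) * ‖mS Φ (S \ T) - mS Φ S‖ ^ 2) := by
  have h1 := mS_split Φ hT
  have h2 := card_split hT
  set m := mS Φ S
  set m1 := mS Φ T
  set m2 := mS Φ (S \ T)
  have h3 : (S.card : ℝ) * inner ℝ m m = (T.card : ℝ) * inner ℝ m1 m + ((S \ T).card : ℝ) * inner ℝ m2 m := by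
    have := congrArg (fun v => inner ℝ v m) h1
    simpa only [inner_add_left, real_inner_smul_left] using this
  unfold eS
  rw [@norm_sub_sq_real, @norm_sub_sq_real]
  rw [real_inner_self_eq_norm_sq] at h3
  change (T.card : ℝ) * ‖m1‖ ^ 2 + ((S \ T).card : ℝ) * ‖m2‖ ^ 2 = (S.card : ℝ) * ‖m‖ ^ 2 + _
  have h4 : ((S \ T).card : ℝ) = S.card - T.card := by linarith
  rw [h4] at h3 ⊢
  linear_combination (-2) * h3

/-- a split never lowers the energy -/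
theorem eS_split_ge (Φ : V → E) {S T : Finset V} (hT : T ⊆ S) : eS Φ S ≤ eS Φ T + eS Φ (S \ T) := by
  rw [eS_split Φ hT]
  have h1 : 0 ≤ (T.card : ℝ) * ‖mS Φ T - mS Φ S‖ ^ 2 := mul_nonneg (Nat.cast_nonneg _) (sq_nonneg _)
  have h2 : 0 ≤ ((S \ T).card : ℝ) * ‖mS Φ (S \ T) - mS Φ S‖ ^ 2 := mul_nonneg (Nat.cast_nonneg _) (sq_nonneg _)
  linarith

omit [DecidableEq V] in
/-- the mean of a violating set is far from the mean of the class -/
theorem eps_le_norm_mS_sub (Φ : V → E) {T : Finset V} (hT0 : T.Nonempty) (m y : E) (eps : ℝ)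
    (hy : ‖y‖ ≤ 1) (h : ∀ a ∈ T, eps ≤ inner ℝ (Φ a - m) y) : eps ≤ ‖mS Φ T - m‖ := by
  have h0 : (0 : ℝ) < T.card := Nat.cast_pos.2 hT0.card_pos
  have h1 : eps ≤ inner ℝ (mS Φ T - m) y := by
    rw [inner_sub_left, inner_mS_left]
    have h2 : (T.card : ℝ) * eps ≤ ∑ a ∈ T, inner ℝ (Φ a - m) y := by
      have := Finset.sum_le_sum h
      rwa [Finset.sum_const, nsmul_eq_mul] at this
    simp only [inner_sub_left, Finset.sum_sub_distrib, Finset.sum_const, nsmul_eq_mul] at h2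
    rw [le_sub_iff_add_le, ← div_eq_inv_mul, le_div_iff₀ h0]
    linarith
  refine h1.trans ((real_inner_le_norm _ _).trans ?_)
  exact mul_le_of_le_one_right (norm_nonneg _) hy

/-- energy gain of a split along a violating set -/
theorem eS_split_gain (Φ : V → E) {S T : Finset V} (hT : T ⊆ S) (hT0 : T.Nonempty) (y : E) (eps : ℝ) (he : 0 ≤ eps)
    (hy : ‖y‖ ≤ 1) (h : ∀ a ∈ T, eps ≤ inner ℝ (Φ a - mS Φ S) y) :
    eS Φ S + (T.card : ℝ) * eps ^ 2 ≤ eS Φ T + eS Φ (S \ T) := by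
  rw [eS_split Φ hT]
  have h1 := eps_le_norm_mS_sub Φ hT0 (mS Φ S) y eps hy h
  have h2 : (T.card : ℝ) * eps ^ 2 ≤ (T.card : ℝ) * ‖mS Φ T - mS Φ S‖ ^ 2 :=
    mul_le_mul_of_nonneg_left (pow_le_pow_left₀ he h1 2) (Nat.cast_nonneg _)
  have h3 : 0 ≤ ((S \ T).card : ℝ) * ‖mS Φ (S \ T) - mS Φ S‖ ^ 2 := mul_nonneg (Nat.cast_nonneg _) (sq_nonneg _)
  linarith

/-- the mean of the stayers moves by at most `2 lam` -/
theorem norm_mS_sdiff_sub (Φ : V → E) {S T : Finset V} (hT : T ⊆ S) (hne : (S \ T).Nonempty) (h : ∀ a ∈ S, ‖Φ a‖ ≤ 1) :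
    ‖mS Φ (S \ T) - mS Φ S‖ ≤ 2 * ((T.card : ℝ) / S.card) := by
  have hS0 : (0 : ℝ) < S.card := Nat.cast_pos.2 ((hne.mono Finset.sdiff_subset).card_pos)
  have h1 := mS_split Φ hT
  have h2 := card_split hT
  have h3 : (S.card : ℝ) • (mS Φ (S \ T) - mS Φ S) = (T.card : ℝ) • (mS Φ (S \ T) - mS Φ T) := by
    rw [smul_sub, h1, ← h2, add_smul, smul_sub]
    abel
  have h4 : ‖mS Φ (S \ T) - mS Φ T‖ ≤ 2 := by
    refine (norm_sub_le _ _).trans ?_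
    have ha := norm_mS_le Φ (S \ T) 1 zero_le_one fun a ha => h a (Finset.sdiff_subset ha)
    have hb := norm_mS_le Φ T 1 zero_le_one fun a ha => h a (hT ha)
    linarith
  have h5 := congrArg norm h3
  rw [norm_smul, norm_smul, Real.norm_natCast, Real.norm_natCast] at h5
  have h6 : (S.card : ℝ) * ‖mS Φ (S \ T) - mS Φ S‖ ≤ 2 * T.card := by
    rw [h5]
    nlinarith [Nat.cast_nonneg (α := ℝ) T.card]
  rw [← mul_div_assoc, le_div_iff₀ hS0]
  linarith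

/-- `T` is a violating set of the class `S` in the small cell `α` (neighbourhood `Nb`): rule of C2.2 -/
def Viol (Φ : V → E) (S α Nb : Finset V) (x eps : ℝ) (T : Finset V) : Prop :=
  T ⊆ S ∩ α ∧ T.Nonempty ∧ x * ((S ∩ Nb).card : ℝ) < T.card ∧
    ∃ y : E, ‖y‖ ≤ 1 ∧ ∀ a ∈ T, eps ≤ inner ℝ (Φ a - mS Φ S) y

theorem Viol.subset {Φ : V → E} {S α Nb : Finset V} {x eps : ℝ} {T : Finset V} (h : Viol Φ S α Nb x eps T) :
    T ⊆ S := h.1.trans Finset.inter_subset_left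

theorem Viol.gain {Φ : V → E} {S α Nb : Finset V} {x eps : ℝ} {T : Finset V} (h : Viol Φ S α Nb x eps T)
    (he : 0 ≤ eps) : eS Φ S + (T.card : ℝ) * eps ^ 2 ≤ eS Φ T + eS Φ (S \ T) := by
  obtain ⟨y, hy, hT⟩ := h.2.2.2
  exact eS_split_gain Φ h.subset h.2.1 y eps he hy hT

/-- a violating set is not the whole class if `eps > 0` -/
theorem Viol.ne {Φ : V → E} {S α Nb : Finset V} {x eps : ℝ} {T : Finset V} (h : Viol Φ S α Nb x eps T)
    (he : 0 < eps) : (S \ T).Nonempty := by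
  by_contra hne
  rw [Finset.not_nonempty_iff_eq_empty, Finset.sdiff_eq_empty_iff_subset] at hne
  have hST : T = S := Finset.Subset.antisymm h.subset hne
  obtain ⟨y, hy, hT⟩ := h.2.2.2
  have h1 := eps_le_norm_mS_sub Φ h.2.1 (mS Φ S) y eps hy hT
  rw [hST, sub_self, norm_zero] at h1
  linarith

/-- SATURATION: no violating set means that the exceptional set is small -/
theorem sat_of_not_viol {Φ : V → E} {S α Nb : Finset V} {x eps : ℝ} (hx : 0 ≤ x)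
    (h : ∀ T, ¬ Viol Φ S α Nb x eps T) (y : E) (hy : ‖y‖ ≤ 1) :
    (((S ∩ α).filter fun a => eps ≤ |inner ℝ (Φ a - mS Φ S) y|).card : ℝ) ≤ 2 * x * ((S ∩ Nb).card : ℝ) := by
  classical
  have hone : ∀ y : E, ‖y‖ ≤ 1 → (((S ∩ α).filter fun a => eps ≤ inner ℝ (Φ a - mS Φ S) y).card : ℝ) ≤
      x * ((S ∩ Nb).card : ℝ) := by
    intro y hy
    by_contra hc
    push Not at hc
    have hpos : (0 : ℝ) < ((S ∩ α).filter fun a => eps ≤ inner ℝ (Φ a - mS Φ S) y).card :=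
      lt_of_le_of_lt (mul_nonneg hx (Nat.cast_nonneg _)) hc
    refine h _ ⟨Finset.filter_subset _ _, Finset.card_pos.1 (Nat.cast_pos.1 hpos), hc, y, hy, ?_⟩
    intro a ha
    exact (Finset.mem_filter.1 ha).2
  have hsub : (S ∩ α).filter (fun a => eps ≤ |inner ℝ (Φ a - mS Φ S) y|) ⊆
      (S ∩ α).filter (fun a => eps ≤ inner ℝ (Φ a - mS Φ S) y) ∪
      (S ∩ α).filter (fun a => eps ≤ inner ℝ (Φ a - mS Φ S) (-y)) := by
    intro a ha
    rw [Finset.mem_filter] at ha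
    rw [Finset.mem_union, Finset.mem_filter, Finset.mem_filter, inner_neg_right]
    rcases le_abs.1 ha.2 with h1 | h1
    · exact Or.inl ⟨ha.1, h1⟩
    · exact Or.inr ⟨ha.1, h1⟩
  have h1 := Finset.card_le_card hsub
  have h2 := (Finset.card_union_le ((S ∩ α).filter (fun a => eps ≤ inner ℝ (Φ a - mS Φ S) y))
    ((S ∩ α).filter (fun a => eps ≤ inner ℝ (Φ a - mS Φ S) (-y))))
  have h3 : (((S ∩ α).filter fun a => eps ≤ |inner ℝ (Φ a - mS Φ S) y|).card : ℝ) ≤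
      (((S ∩ α).filter (fun a => eps ≤ inner ℝ (Φ a - mS Φ S) y)).card : ℝ) +
      ((S ∩ α).filter (fun a => eps ≤ inner ℝ (Φ a - mS Φ S) (-y))).card := by
    rw [← Nat.cast_add]
    exact Nat.cast_le.2 (h1.trans h2)
  have h4 := hone y hy
  have h5 := hone (-y) (by rwa [norm_neg])
  linarith

/-- the exceptional set for the values `<Φ a, y>` and `<mS S, y>` of another vector `y` -/
theorem sat_values {Φ : V → E} {S α Nb : Finset V} {x eps : ℝ} (hx : 0 ≤ x)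
    (h : ∀ T, ¬ Viol Φ S α Nb x eps T) (y : E) (hy : ‖y‖ ≤ 1) :
    (((S ∩ α).filter fun a => eps ≤ |inner ℝ (Φ a) y - inner ℝ (mS Φ S) y|).card : ℝ) ≤
      2 * x * ((S ∩ Nb).card : ℝ) := by
  have h1 := sat_of_not_viol hx h y hy
  simpa only [inner_sub_left] using h1

end Hilb

/-! ## the weighted sequence space -/

section Emb

variable {Ω : Type*} [Fintype Ω]

/-- a function as a vector of the space with weights `ρ` -/
noncomputable def emb (ρ : Ω → ℝ) (f : Ω → ℝ) : EuclideanSpace ℝ Ω := WithLp.toLp 2 fun ω => Real.sqrt (ρ ω) * f ω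

theorem inner_emb (ρ : Ω → ℝ) (hρ : ∀ ω, 0 ≤ ρ ω) (f g : Ω → ℝ) :
    inner ℝ (emb ρ f) (emb ρ g) = ∑ ω, ρ ω * (f ω * g ω) := by
  unfold emb
  rw [PiLp.inner_apply]
  refine Finset.sum_congr rfl fun ω _ => ?_
  simp only [RCLike.inner_apply, conj_trivial]
  have h := Real.mul_self_sqrt (hρ ω)
  linear_combination (f ω * g ω) * h

theorem norm_emb_le (ρ : Ω → ℝ) (hρ : ∀ ω, 0 ≤ ρ ω) (hρ1 : ∑ ω, ρ ω ≤ 1) (f : Ω → ℝ) (hf : ∀ ω, |f ω| ≤ 1) :
    ‖emb ρ f‖ ≤ 1 := by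
  have h1 : ‖emb ρ f‖ ^ 2 ≤ 1 := by
    rw [← real_inner_self_eq_norm_sq, inner_emb ρ hρ]
    refine le_trans (Finset.sum_le_sum fun ω _ => ?_) hρ1
    have h2 : f ω * f ω ≤ 1 := by
      have := hf ω
      rw [← abs_mul_abs_self]
      exact mul_le_one₀ this (abs_nonneg _) this
    exact mul_le_of_le_one_right (hρ ω) h2
  nlinarith [norm_nonneg (emb ρ f)]

/-- difference of two inner products -/
theorem abs_ip_sub_le (ρ : Ω → ℝ) (hρ : ∀ ω, 0 ≤ ρ ω) (f f' g : Ω → ℝ) (hg : ∀ ω, |g ω| ≤ 1) :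
    |(∑ ω, ρ ω * (f ω * g ω)) - ∑ ω, ρ ω * (f' ω * g ω)| ≤ ∑ ω, ρ ω * |f ω - f' ω| := by
  rw [← Finset.sum_sub_distrib]
  refine (Finset.abs_sum_le_sum_abs _ _).trans (Finset.sum_le_sum fun ω _ => ?_)
  have h1 : ρ ω * (f ω * g ω) - ρ ω * (f' ω * g ω) = ρ ω * ((f ω - f' ω) * g ω) := by ring
  rw [h1, abs_mul, abs_mul, abs_of_nonneg (hρ ω)]
  exact mul_le_mul_of_nonneg_left (mul_le_of_le_one_right (abs_nonneg _) (hg ω)) (hρ ω)

end Emb

/-! ## instances for the hatted faces -/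

section Inst

variable {X Z Ξ : Type*} [Fintype X] [Fintype Z] [Fintype Ξ]

/-- the vector `Fhat` at a node with weights `w`, `u` -/
noncomputable def vec {n : ℕ} (w : Fin n → X → ℝ) (u : Z → ℝ) (q : ℕ) (f : (Fin n → X) → Z → ℝ) :
    EuclideanSpace ℝ (Oh X Z n q) := emb (wh w u q) (hat q f)

omit [Fintype X] [Fintype Z] in
theorem wh_nonneg {n : ℕ} (w : Fin n → X → ℝ) (hw : ∀ i x, 0 ≤ w i x) (u : Z → ℝ) (hu : ∀ z, 0 ≤ u z) (q : ℕ)
    (ω : Oh X Z n q) : 0 ≤ wh w u q ω :=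
  mul_nonneg (mul_nonneg (Finset.prod_nonneg fun i _ => hw i _) (Finset.prod_nonneg fun i _ => hw i _))
    (Finset.prod_nonneg fun _ _ => hu _)

theorem sum_wh_one {n : ℕ} (w : Fin n → X → ℝ) (hs : ∀ i, ∑ x, w i x = 1) (u : Z → ℝ) (hu1 : ∑ z, u z = 1) (q : ℕ) :
    ∑ ω, wh w u q ω = 1 := by
  have h := sum_wh w u q (fun _ => (1 : ℝ))
  simp only [mul_one] at h
  rw [h]
  rw [pm_congr w fun x => pm_congr w fun y => pm_const (fun _ : Fin (2 * q) => u) (fun _ => hu1) (1 : ℝ)]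
  rw [pm_congr w fun x => pm_const w hs (1 : ℝ), pm_const w hs]

theorem inner_vec {n : ℕ} (w : Fin n → X → ℝ) (hw : ∀ i x, 0 ≤ w i x) (u : Z → ℝ) (hu : ∀ z, 0 ≤ u z) (q : ℕ)
    (f g : (Fin n → X) → Z → ℝ) :
    inner ℝ (vec w u q f) (vec w u q g) = kap w u q fun x z => f x z * g x z := by
  unfold vec
  rw [inner_emb _ (wh_nonneg w hw u hu q), ← ip_hat]
  rfl

theorem norm_vec_le {n : ℕ} (w : Fin n → X → ℝ) (hw : ∀ i x, 0 ≤ w i x) (hs : ∀ i, ∑ x, w i x = 1)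
    (u : Z → ℝ) (hu : ∀ z, 0 ≤ u z) (hu1 : ∑ z, u z = 1) (q : ℕ) (f : (Fin n → X) → Z → ℝ)
    (hf : ∀ x z, |f x z| ≤ 1) : ‖vec w u q f‖ ≤ 1 :=
  norm_emb_le _ (wh_nonneg w hw u hu q) (sum_wh_one w hs u hu1 q).le _ (hat_abs q f hf)

/-- the vector with coins -/
noncomputable def vecc {n : ℕ} (w : Fin n → X → ℝ) (v : Ξ → ℝ) (u : Z → ℝ) (q : ℕ) (f : (Fin n → X) → Ξ → Z → ℝ) :
    EuclideanSpace ℝ (Ohc X Ξ Z n q) := emb (whc w v u q) (hatc q f)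

omit [Fintype X] [Fintype Z] [Fintype Ξ] in
theorem whc_nonneg {n : ℕ} (w : Fin n → X → ℝ) (hw : ∀ i x, 0 ≤ w i x) (v : Ξ → ℝ) (hv : ∀ ξ, 0 ≤ v ξ)
    (u : Z → ℝ) (hu : ∀ z, 0 ≤ u z) (q : ℕ) (ω : Ohc X Ξ Z n q) : 0 ≤ whc w v u q ω :=
  mul_nonneg (mul_nonneg (Finset.prod_nonneg fun i _ => hw i _) (Finset.prod_nonneg fun i _ => hw i _))
    (mul_nonneg (Finset.prod_nonneg fun _ _ => hv _) (Finset.prod_nonneg fun _ _ => hu _))

theorem sum_whc_one {n : ℕ} (w : Fin n → X → ℝ) (hs : ∀ i, ∑ x, w i x = 1) (v : Ξ → ℝ) (hv1 : ∑ ξ, v ξ = 1)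
    (u : Z → ℝ) (hu1 : ∑ z, u z = 1) (q : ℕ) : ∑ ω, whc w v u q ω = 1 := by
  have h := sum_whc w v u q (fun _ => (1 : ℝ))
  simp only [mul_one] at h
  rw [h]
  rw [pm_congr w fun x => pm_congr w fun y => pc_congr n v fun ξ =>
    pm_const (fun _ : Fin (2 * q) => u) (fun _ => hu1) (1 : ℝ)]
  rw [pm_congr w fun x => pm_congr w fun y => pc_const n v hv1 (1 : ℝ)]
  rw [pm_congr w fun x => pm_const w hs (1 : ℝ), pm_const w hs]

theorem inner_vecc {n : ℕ} (w : Fin n → X → ℝ) (hw : ∀ i x, 0 ≤ w i x) (v : Ξ → ℝ) (hv : ∀ ξ, 0 ≤ v ξ)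
    (u : Z → ℝ) (hu : ∀ z, 0 ≤ u z) (q : ℕ) (f g : (Fin n → X) → Ξ → Z → ℝ) :
    inner ℝ (vecc w v u q f) (vecc w v u q g) = kapc w v u q fun x ξ z => f x ξ z * g x ξ z := by
  unfold vecc
  rw [inner_emb _ (whc_nonneg w hw v hv u hu q), ← ipc_hatc]
  rfl

theorem norm_vecc_le {n : ℕ} (w : Fin n → X → ℝ) (hw : ∀ i x, 0 ≤ w i x) (hs : ∀ i, ∑ x, w i x = 1)
    (v : Ξ → ℝ) (hv : ∀ ξ, 0 ≤ v ξ) (hv1 : ∑ ξ, v ξ = 1)
    (u : Z → ℝ) (hu : ∀ z, 0 ≤ u z) (hu1 : ∑ z, u z = 1) (q : ℕ) (f : (Fin n → X) → Ξ → Z → ℝ)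
    (hf : ∀ x ξ z, |f x ξ z| ≤ 1) : ‖vecc w v u q f‖ ≤ 1 :=
  norm_emb_le _ (whc_nonneg w hw v hv u hu q) (sum_whc_one w hs v hv1 u hu1 q).le _ (hatc_abs q f hf)

/-! ## one bit for class means -/

theorem inner_mS_vec {A B : Type*} {n : ℕ} (w : Fin n → X → ℝ) (hw : ∀ i x, 0 ≤ w i x) (u : Z → ℝ)
    (hu : ∀ z, 0 ≤ u z) (q : ℕ) (F : A → (Fin n → X) → Z → ℝ) (G : B → (Fin n → X) → Z → ℝ)
    (S : Finset A) (S' : Finset B) :
    inner ℝ (mS (fun a => vec w u q (F a)) S) (mS (fun b => vec w u q (G b)) S') =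
      ((S.card : ℝ)⁻¹ * (S'.card : ℝ)⁻¹) * ∑ a ∈ S, ∑ b ∈ S', kap w u q fun x z => F a x z * G b x z := by
  rw [inner_mS_left, mul_assoc, Finset.mul_sum (f := fun a => ∑ b ∈ S', kap w u q fun x z => F a x z * G b x z)]
  congr 1
  refine Finset.sum_congr rfl fun a _ => ?_
  rw [inner_mS_right]
  congr 1
  exact Finset.sum_congr rfl fun b _ => inner_vec w hw u hu q _ _

theorem inner_mS_vecc {A B : Type*} {n : ℕ} (w : Fin n → X → ℝ) (hw : ∀ i x, 0 ≤ w i x) (v : Ξ → ℝ)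
    (hv : ∀ ξ, 0 ≤ v ξ) (u : Z → ℝ) (hu : ∀ z, 0 ≤ u z) (q : ℕ) (F : A → (Fin n → X) → Ξ → Z → ℝ)
    (G : B → (Fin n → X) → Ξ → Z → ℝ) (S : Finset A) (S' : Finset B) :
    inner ℝ (mS (fun a => vecc w v u q (F a)) S) (mS (fun b => vecc w v u q (G b)) S') =
      ((S.card : ℝ)⁻¹ * (S'.card : ℝ)⁻¹) * ∑ a ∈ S, ∑ b ∈ S', kapc w v u q fun x ξ z => F a x ξ z * G b x ξ z := by
  rw [inner_mS_left, mul_assoc, Finset.mul_sum (f := fun a => ∑ b ∈ S', kapc w v u q fun x ξ z => F a x ξ z * G b x ξ z)]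
  congr 1
  refine Finset.sum_congr rfl fun a _ => ?_
  rw [inner_mS_right]
  congr 1
  exact Finset.sum_congr rfl fun b _ => inner_vecc w hw v hv u hu q _ _

omit [Fintype X] in
theorem update_nonneg {n : ℕ} {w : Fin n → X → ℝ} (hw : ∀ i x, 0 ≤ w i x) (p : Fin n) {w1 : X → ℝ}
    (hw1 : ∀ x, 0 ≤ w1 x) (i : Fin n) (x : X) : 0 ≤ Function.update w p w1 i x := by
  by_cases h : i = p
  · subst h
    rw [Function.update_self]
    exact hw1 x
  · rw [Function.update_of_ne h]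
    exact hw i x

/-- (PSD) (i) for class means: `be` is the bias of the bit of the coordinate `p` -/
theorem mS_bit {A B : Type*} {n : ℕ} (w : Fin n → X → ℝ) (hw : ∀ i x, 0 ≤ w i x) (p : Fin n) (w1 w2 : X → ℝ)
    (hw1 : ∀ x, 0 ≤ w1 x) (hw2 : ∀ x, 0 ≤ w2 x) (h12 : ∀ x, w p x = (w1 x + w2 x) / 2) (be : ℝ)
    (v : Ξ → ℝ) (hv : ∀ ξ, 0 ≤ v ξ) (u : Z → ℝ) (hu : ∀ z, 0 ≤ u z) (q : ℕ)
    (F : A → (Fin n → X) → Ξ → Z → ℝ) (G : B → (Fin n → X) → Ξ → Z → ℝ) (S : Finset A) (S' : Finset B) :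
    (1 - be ^ 2) * inner ℝ (mS (fun a => vecc w v u q (F a)) S) (mS (fun b => vecc w v u q (G b)) S') ≤
      (1 + be) / 2 * inner ℝ (mS (fun a => vecc (Function.update w p w1) v u q (F a)) S)
        (mS (fun b => vecc (Function.update w p w1) v u q (G b)) S') +
      (1 - be) / 2 * inner ℝ (mS (fun a => vecc (Function.update w p w2) v u q (F a)) S)
        (mS (fun b => vecc (Function.update w p w2) v u q (G b)) S') := by
  rw [inner_mS_vecc w hw v hv u hu, inner_mS_vecc _ (update_nonneg hw p hw1) v hv u hu,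
    inner_mS_vecc _ (update_nonneg hw p hw2) v hv u hu]
  have hc : 0 ≤ (S.card : ℝ)⁻¹ * (S'.card : ℝ)⁻¹ :=
    mul_nonneg (inv_nonneg.2 (Nat.cast_nonneg _)) (inv_nonneg.2 (Nat.cast_nonneg _))
  have h := Finset.sum_le_sum fun a (_ : a ∈ S) => Finset.sum_le_sum fun b (_ : b ∈ S') =>
    kapc_bit w hw p w1 w2 h12 be v u hu q fun x ξ z => F a x ξ z * G b x ξ z
  simp only [Finset.sum_add_distrib, ← Finset.mul_sum] at h
  have h2 := mul_le_mul_of_nonneg_left h hc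
  nlinarith [h2]

/-- (PSD) (ii) for class means: the bit of the window -/
theorem mS_win {A B : Type*} {n : ℕ} (w : Fin n → X → ℝ) (hw : ∀ i x, 0 ≤ w i x)
    (v : Ξ → ℝ) (hv : ∀ ξ, 0 ≤ v ξ) (u u1 u2 : Z → ℝ) (hu : ∀ z, 0 ≤ u z) (hu1 : ∀ z, 0 ≤ u1 z) (hu2 : ∀ z, 0 ≤ u2 z)
    (h12 : ∀ z, u z = (u1 z + u2 z) / 2) (be : ℝ) (hbe : |be| ≤ 1) (q : ℕ)
    (F : A → (Fin n → X) → Ξ → Z → ℝ) (G : B → (Fin n → X) → Ξ → Z → ℝ) (S : Finset A) (S' : Finset B) :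
    (1 - be ^ 2) ^ q * inner ℝ (mS (fun a => vecc w v u q (F a)) S) (mS (fun b => vecc w v u q (G b)) S') ≤
      (1 + be) / 2 * inner ℝ (mS (fun a => vecc w v u1 q (F a)) S) (mS (fun b => vecc w v u1 q (G b)) S') +
      (1 - be) / 2 * inner ℝ (mS (fun a => vecc w v u2 q (F a)) S) (mS (fun b => vecc w v u2 q (G b)) S') := by
  rw [inner_mS_vecc w hw v hv u hu, inner_mS_vecc w hw v hv u1 hu1, inner_mS_vecc w hw v hv u2 hu2]
  have hc : 0 ≤ (S.card : ℝ)⁻¹ * (S'.card : ℝ)⁻¹ :=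
    mul_nonneg (inv_nonneg.2 (Nat.cast_nonneg _)) (inv_nonneg.2 (Nat.cast_nonneg _))
  have h := Finset.sum_le_sum fun a (_ : a ∈ S) => Finset.sum_le_sum fun b (_ : b ∈ S') =>
    kapc_win w hw v hv u u1 u2 h12 be hbe q fun x ξ z => F a x ξ z * G b x ξ z
  simp only [Finset.sum_add_distrib, ← Finset.mul_sum] at h
  have h2 := mul_le_mul_of_nonneg_left h hc
  nlinarith [h2]

/-- (PSD) (i) for class means, without coins -/
theorem mS_bit0 {A B : Type*} {n : ℕ} (w : Fin n → X → ℝ) (hw : ∀ i x, 0 ≤ w i x) (p : Fin n) (w1 w2 : X → ℝ)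
    (hw1 : ∀ x, 0 ≤ w1 x) (hw2 : ∀ x, 0 ≤ w2 x) (h12 : ∀ x, w p x = (w1 x + w2 x) / 2) (be : ℝ)
    (u : Z → ℝ) (hu : ∀ z, 0 ≤ u z) (q : ℕ)
    (F : A → (Fin n → X) → Z → ℝ) (G : B → (Fin n → X) → Z → ℝ) (S : Finset A) (S' : Finset B) :
    (1 - be ^ 2) * inner ℝ (mS (fun a => vec w u q (F a)) S) (mS (fun b => vec w u q (G b)) S') ≤
      (1 + be) / 2 * inner ℝ (mS (fun a => vec (Function.update w p w1) u q (F a)) S)
        (mS (fun b => vec (Function.update w p w1) u q (G b)) S') +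
      (1 - be) / 2 * inner ℝ (mS (fun a => vec (Function.update w p w2) u q (F a)) S)
        (mS (fun b => vec (Function.update w p w2) u q (G b)) S') := by
  rw [inner_mS_vec w hw u hu, inner_mS_vec _ (update_nonneg hw p hw1) u hu,
    inner_mS_vec _ (update_nonneg hw p hw2) u hu]
  have hc : 0 ≤ (S.card : ℝ)⁻¹ * (S'.card : ℝ)⁻¹ :=
    mul_nonneg (inv_nonneg.2 (Nat.cast_nonneg _)) (inv_nonneg.2 (Nat.cast_nonneg _))
  have h := Finset.sum_le_sum fun a (_ : a ∈ S) => Finset.sum_le_sum fun b (_ : b ∈ S') =>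
    kap_bit w hw p w1 w2 h12 be u hu q fun x z => F a x z * G b x z
  simp only [Finset.sum_add_distrib, ← Finset.mul_sum] at h
  have h2 := mul_le_mul_of_nonneg_left h hc
  nlinarith [h2]

/-- (PSD) (ii) for class means, without coins -/
theorem mS_win0 {A B : Type*} {n : ℕ} (w : Fin n → X → ℝ) (hw : ∀ i x, 0 ≤ w i x)
    (u u1 u2 : Z → ℝ) (hu : ∀ z, 0 ≤ u z) (hu1 : ∀ z, 0 ≤ u1 z) (hu2 : ∀ z, 0 ≤ u2 z)
    (h12 : ∀ z, u z = (u1 z + u2 z) / 2) (be : ℝ) (hbe : |be| ≤ 1) (q : ℕ)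
    (F : A → (Fin n → X) → Z → ℝ) (G : B → (Fin n → X) → Z → ℝ) (S : Finset A) (S' : Finset B) :
    (1 - be ^ 2) ^ q * inner ℝ (mS (fun a => vec w u q (F a)) S) (mS (fun b => vec w u q (G b)) S') ≤
      (1 + be) / 2 * inner ℝ (mS (fun a => vec w u1 q (F a)) S) (mS (fun b => vec w u1 q (G b)) S') +
      (1 - be) / 2 * inner ℝ (mS (fun a => vec w u2 q (F a)) S) (mS (fun b => vec w u2 q (G b)) S') := by
  rw [inner_mS_vec w hw u hu, inner_mS_vec w hw u1 hu1, inner_mS_vec w hw u2 hu2]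
  have hc : 0 ≤ (S.card : ℝ)⁻¹ * (S'.card : ℝ)⁻¹ :=
    mul_nonneg (inv_nonneg.2 (Nat.cast_nonneg _)) (inv_nonneg.2 (Nat.cast_nonneg _))
  have h := Finset.sum_le_sum fun a (_ : a ∈ S) => Finset.sum_le_sum fun b (_ : b ∈ S') =>
    kap_win w hw u u1 u2 h12 be hbe q fun x z => F a x z * G b x z
  simp only [Finset.sum_add_distrib, ← Finset.mul_sum] at h
  have h2 := mul_le_mul_of_nonneg_left h hc
  nlinarith [h2]

end Inst

end Pool.Agent.GM99
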