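import Mathlib

/-!
# GM99/Gcs: the box (Gowers) Cauchy-Schwarz inequality for products of probability weights (C2.1 (GCS))
-/

set_option autoImplicit false

namespace Pool.Agent.GM99

open Finset

variable {X : Type*} [Fintype X]

/-- mean of `f` for the product of the weights `w i` -/
noncomputable def pm {n : ℕ} (w : Fin n → X → ℝ) (f : (Fin n → X) → ℝ) : ℝ :=
  ∑ x : Fin n → X, (∏ i, w i (x i)) * f x

/-- the point `om^e` -/
def mixp {n : ℕ} (x y : Fin n → X) (e : Fin n → Bool) : Fin n → X := fun i => if e i then y i else x i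

/-- the box form: mean over two points of the product over the `2^n` mixed points -/
noncomputable def box {n : ℕ} (w : Fin n → X → ℝ) (Φ : (Fin n → X) → ℝ) : ℝ :=
  pm w fun x => pm w fun y => ∏ e : Fin n → Bool, Φ (mixp x y e)

theorem pm_mono {n : ℕ} (w : Fin n → X → ℝ) (hw : ∀ i x, 0 ≤ w i x) {f g : (Fin n → X) → ℝ} (h : ∀ x, f x ≤ g x) :
    pm w f ≤ pm w g :=
  Finset.sum_le_sum fun x _ => mul_le_mul_of_nonneg_left (h x) (Finset.prod_nonneg fun i _ => hw i _)

theorem pm_congr {n : ℕ} (w : Fin n → X → ℝ) {f g : (Fin n → X) → ℝ} (h : ∀ x, f x = g x) :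
    pm w f = pm w g := by
  unfold pm
  exact Finset.sum_congr rfl fun x _ => by rw [h x]

theorem pm_const {n : ℕ} (w : Fin n → X → ℝ) (hs : ∀ i, ∑ x, w i x = 1) (c : ℝ) : pm w (fun _ => c) = c := by
  unfold pm
  rw [← Finset.sum_mul]
  have h := Finset.prod_univ_sum (fun _ : Fin n => (univ : Finset X)) (fun i x => w i x)
  rw [Fintype.piFinset_univ] at h
  rw [← h]
  simp [hs]

theorem pm_succ {n : ℕ} (w : Fin (n + 1) → X → ℝ) (f : (Fin (n + 1) → X) → ℝ) :
    pm w f = ∑ a : X, w 0 a * pm (fun i : Fin n => w i.succ) (fun x => f (Fin.cons a x)) := by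
  unfold pm
  rw [← (Fin.consEquiv (fun _ => X)).sum_comp, Fintype.sum_prod_type]
  refine Finset.sum_congr rfl fun a _ => ?_
  rw [Finset.mul_sum]
  refine Finset.sum_congr rfl fun x _ => ?_
  simp only [Fin.consEquiv, Equiv.coe_fn_mk, Fin.prod_univ_succ, Fin.cons_zero, Fin.cons_succ]
  ring

theorem pm_sum {n : ℕ} {ι : Type*} (s : Finset ι) (w : Fin n → X → ℝ) (f : ι → (Fin n → X) → ℝ) :
    pm w (fun x => ∑ k ∈ s, f k x) = ∑ k ∈ s, pm w (f k) := by
  unfold pm
  rw [Finset.sum_comm]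
  refine Finset.sum_congr rfl fun x _ => ?_
  rw [Finset.mul_sum]

theorem pm_mul_left {n : ℕ} (w : Fin n → X → ℝ) (c : ℝ) (f : (Fin n → X) → ℝ) :
    pm w (fun x => c * f x) = c * pm w f := by
  unfold pm
  rw [Finset.mul_sum]
  refine Finset.sum_congr rfl fun x _ => ?_
  ring

/-- Jensen for the power `2^n` of a mean -/
theorem jensen_two_pow {ι : Type*} (s : Finset ι) (p z : ι → ℝ) (hp : ∀ i ∈ s, 0 ≤ p i) (h1 : ∑ i ∈ s, p i = 1) (n : ℕ) :
    (∑ i ∈ s, p i * z i) ^ (2 ^ n) ≤ ∑ i ∈ s, p i * z i ^ (2 ^ n) := by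
  rcases Nat.eq_zero_or_pos n with rfl | hn
  · simp
  · have h : Even (2 ^ n) := (Nat.even_pow.2 ⟨even_two, hn.ne'⟩)
    exact Real.pow_arith_mean_le_arith_mean_pow_of_even s p z hp h1 h

theorem jensen_pm {n : ℕ} (w : Fin n → X → ℝ) (hw : ∀ i x, 0 ≤ w i x) (hs : ∀ i, ∑ x, w i x = 1)
    (f : (Fin n → X) → ℝ) (N : ℕ) : pm w f ^ (2 ^ N) ≤ pm w fun x => f x ^ (2 ^ N) := by
  refine jensen_two_pow _ _ _ (fun x _ => Finset.prod_nonneg fun i _ => hw i _) ?_ N
  simpa [pm] using pm_const w hs 1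

/-- BOX CAUCHY-SCHWARZ -/
theorem gcs : ∀ (n : ℕ) (w : Fin n → X → ℝ) (_ : ∀ i x, 0 ≤ w i x) (_ : ∀ i, ∑ x, w i x = 1)
    (Φ : (Fin n → X) → ℝ) (H : Fin n → (Fin n → X) → ℝ) (_ : ∀ i x, |H i x| ≤ 1)
    (_ : ∀ i x y, (∀ j, j ≠ i → x j = y j) → H i x = H i y),
    (pm w fun x => Φ x * ∏ i, H i x) ^ (2 ^ n) ≤ box w Φ := by
  intro n
  induction n with
  | zero =>
    intro w _ _ Φ H _ _
    simp only [pow_zero, pow_one, box, pm, Finset.univ_unique, Finset.univ_eq_empty, Finset.prod_empty, one_mul,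
      Finset.sum_singleton, mul_one, Finset.prod_singleton]
    refine le_of_eq (congrArg Φ ?_)
    funext i
    exact i.elim0
  | succ n ih =>
    intro w hw hs Φ H hH hI
    set w' : Fin n → X → ℝ := fun i => w i.succ with hw'
    have hw1 : ∀ i x, 0 ≤ w' i x := fun i x => hw _ _
    have hs1 : ∀ i, ∑ x, w' i x = 1 := fun i => hs _
    -- inner mean
    set g : (Fin n → X) → X → ℝ := fun x a => Φ (Fin.cons a x) * ∏ i : Fin n, H i.succ (Fin.cons a x) with hg
    have hne : Nonempty X := by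
      by_contra hX
      rw [not_nonempty_iff] at hX
      have := hs 0
      simp at this
    obtain ⟨a0⟩ := hne
    have hM : (pm w fun x => Φ x * ∏ i, H i x) = pm w' fun x => H 0 (Fin.cons a0 x) * ∑ a, w 0 a * g x a := by
      rw [pm_succ]
      have h1 : ∀ a, w 0 a * pm (fun i : Fin n => w i.succ) (fun x => Φ (Fin.cons a x) * ∏ i, H i (Fin.cons a x)) =
          pm w' fun x => H 0 (Fin.cons a0 x) * (w 0 a * g x a) := by
        intro a
        rw [← pm_mul_left]
        refine pm_congr _ fun x => ?_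
        have h2 : H 0 (Fin.cons a x) = H 0 (Fin.cons a0 x) := by
          refine hI 0 _ _ fun j hj => ?_
          obtain ⟨i, rfl⟩ := Fin.exists_succ_eq.2 hj
          simp
        rw [Fin.prod_univ_succ, h2, hg]
        ring
      rw [Finset.sum_congr rfl fun a _ => h1 a, ← pm_sum]
      refine pm_congr _ fun x => ?_
      rw [Finset.mul_sum]
    -- Cauchy-Schwarz
    have hCS : (pm w fun x => Φ x * ∏ i, H i x) ^ 2 ≤ pm w' fun x => (∑ a, w 0 a * g x a) ^ 2 := by
      rw [hM]
      have h3 := jensen_pm w' hw1 hs1 (fun x => H 0 (Fin.cons a0 x) * ∑ a, w 0 a * g x a) 1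
      rw [pow_one] at h3
      refine h3.trans (pm_mono _ hw1 fun x => ?_)
      rw [mul_pow]
      have h4 : H 0 (Fin.cons a0 x) ^ 2 ≤ 1 := by
        have := hH 0 (Fin.cons a0 x)
        rw [← sq_abs]
        exact pow_le_one₀ (abs_nonneg _) this
      nlinarith [sq_nonneg (∑ a, w 0 a * g x a)]
    have hEx : (pm w' fun x => (∑ a, w 0 a * g x a) ^ 2) =
        ∑ q : X × X, (w 0 q.1 * w 0 q.2) * pm w' fun x => (Φ (Fin.cons q.1 x) * Φ (Fin.cons q.2 x)) *
          ∏ i : Fin n, (H i.succ (Fin.cons q.1 x) * H i.succ (Fin.cons q.2 x)) := by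
      rw [Finset.sum_congr rfl fun q _ => (pm_mul_left w' _ _).symm, ← pm_sum]
      refine pm_congr _ fun x => ?_
      rw [sq, Finset.sum_mul_sum, ← Finset.sum_product', Finset.univ_product_univ]
      refine Finset.sum_congr rfl fun q _ => ?_
      rw [Finset.prod_mul_distrib, hg]
      ring
    have hpos : 0 ≤ (pm w fun x => Φ x * ∏ i, H i x) ^ 2 := sq_nonneg _
    rw [pow_succ, mul_comm, pow_mul]
    refine (pow_le_pow_left₀ hpos (hCS.trans_eq hEx) _).trans ?_
    have hsum1 : ∑ q : X × X, w 0 q.1 * w 0 q.2 = 1 := by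
      rw [← Finset.univ_product_univ, Finset.sum_product' (f := fun a b => w 0 a * w 0 b), ← Finset.sum_mul_sum, hs, one_mul]
    refine (jensen_two_pow _ _ _ (fun q _ => mul_nonneg (hw _ _) (hw _ _)) hsum1 n).trans ?_
    -- induction hypothesis
    have hIH : ∀ q : X × X, (pm w' fun x => (Φ (Fin.cons q.1 x) * Φ (Fin.cons q.2 x)) *
          ∏ i : Fin n, (H i.succ (Fin.cons q.1 x) * H i.succ (Fin.cons q.2 x))) ^ (2 ^ n) ≤
        box w' fun x => Φ (Fin.cons q.1 x) * Φ (Fin.cons q.2 x) := by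
      intro q
      refine ih w' hw1 hs1 _ (fun i x => H i.succ (Fin.cons q.1 x) * H i.succ (Fin.cons q.2 x)) ?_ ?_
      · intro i x
        rw [abs_mul]
        exact mul_le_one₀ (hH _ _) (abs_nonneg _) (hH _ _)
      · intro i x y h
        have h5 : ∀ a : X, H i.succ (Fin.cons a x) = H i.succ (Fin.cons a y) := by
          intro a
          refine hI _ _ _ fun j hj => ?_
          refine Fin.cases ?_ (fun j => ?_) j hj
          · intro _
            simp
          · intro hj
            simp only [Fin.cons_succ]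
            exact h j fun h6 => hj (by rw [h6])
        simp only [h5]
    refine (Finset.sum_le_sum fun q _ => mul_le_mul_of_nonneg_left (hIH q) (mul_nonneg (hw _ _) (hw _ _))).trans ?_
    -- reindexing
    apply le_of_eq
    unfold box
    rw [pm_succ]
    have h6 : ∀ a, (w 0 a * pm (fun i : Fin n => w i.succ) fun x => pm w fun y =>
        ∏ e : Fin (n + 1) → Bool, Φ (mixp (Fin.cons a x) y e)) =
        ∑ b, (w 0 a * w 0 b) * pm w' fun x => pm w' fun y => ∏ e : Fin n → Bool,
          (Φ (Fin.cons a (mixp x y e)) * Φ (Fin.cons b (mixp x y e))) := by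
      intro a
      rw [← pm_mul_left, Finset.sum_congr rfl fun b _ => (pm_mul_left w' _ _).symm, ← pm_sum]
      refine pm_congr _ fun x => ?_
      rw [pm_succ, Finset.mul_sum]
      refine Finset.sum_congr rfl fun b _ => ?_
      rw [mul_assoc]
      congr 2
      refine pm_congr _ fun y => ?_
      rw [← (Fin.consEquiv (fun _ => Bool)).prod_comp, Fintype.prod_prod_type, Finset.prod_comm]
      refine Finset.prod_congr rfl fun e _ => ?_
      rw [Fintype.prod_bool, mul_comm]
      have h7 : ∀ (c : Bool), mixp (Fin.cons a x) (Fin.cons b y) (Fin.consEquiv (fun _ => Bool) (c, e)) =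
          Fin.cons (if c then b else a) (mixp x y e) := by
        intro c
        funext i
        refine Fin.cases ?_ (fun i => ?_) i
        · simp [mixp, Fin.consEquiv]
        · simp [mixp, Fin.consEquiv]
      rw [h7, h7]
      simp
    rw [Finset.sum_congr rfl fun a _ => h6 a, ← Finset.univ_product_univ, Finset.sum_product]

end Pool.Agent.GM99
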