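import Pool.Agent.GM99.Kern

/-!
# GM99/KernC: the kernels of C2.1 when the face carries a coin at the exact point: every one of the `2^n` copies
has its own independent coin. The case `Xi = Unit` is `Kern`.
-/

set_option autoImplicit false

namespace Pool.Agent.GM99

open Finset

variable {X Z Ξ : Type*} [Fintype X] [Fintype Z] [Fintype Ξ]

/-- mean over independent coins of the copies -/
noncomputable def pc (n : ℕ) (v : Ξ → ℝ) (g : ((Fin n → Bool) → Ξ) → ℝ) : ℝ :=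
  ∑ ξ : (Fin n → Bool) → Ξ, (∏ e, v (ξ e)) * g ξ

/-- the kernel with coins -/
noncomputable def kapc {n : ℕ} (w : Fin n → X → ℝ) (v : Ξ → ℝ) (u : Z → ℝ) (q : ℕ)
    (f : (Fin n → X) → Ξ → Z → ℝ) : ℝ :=
  pm w fun x => pm w fun y => pc n v fun ξ => (∑ z, u z * ∏ e : Fin n → Bool, f (mixp x y e) (ξ e) z) ^ (2 * q)

theorem pc_mono (n : ℕ) (v : Ξ → ℝ) (hv : ∀ ξ, 0 ≤ v ξ) {g h : ((Fin n → Bool) → Ξ) → ℝ} (hgh : ∀ ξ, g ξ ≤ h ξ) :
    pc n v g ≤ pc n v h :=
  Finset.sum_le_sum fun ξ _ => mul_le_mul_of_nonneg_left (hgh ξ) (Finset.prod_nonneg fun _ _ => hv _)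

theorem pc_nonneg (n : ℕ) (v : Ξ → ℝ) (hv : ∀ ξ, 0 ≤ v ξ) {g : ((Fin n → Bool) → Ξ) → ℝ} (hg : ∀ ξ, 0 ≤ g ξ) :
    0 ≤ pc n v g :=
  Finset.sum_nonneg fun ξ _ => mul_nonneg (Finset.prod_nonneg fun _ _ => hv _) (hg ξ)

theorem pc_congr (n : ℕ) (v : Ξ → ℝ) {g h : ((Fin n → Bool) → Ξ) → ℝ} (hgh : ∀ ξ, g ξ = h ξ) :
    pc n v g = pc n v h := by
  unfold pc
  exact Finset.sum_congr rfl fun ξ _ => by rw [hgh]

theorem pc_const (n : ℕ) (v : Ξ → ℝ) (hv1 : ∑ ξ, v ξ = 1) (c : ℝ) : pc n v (fun _ => c) = c := by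
  unfold pc
  rw [← Finset.sum_mul]
  have h := Finset.prod_univ_sum (fun _ : Fin n → Bool => (univ : Finset Ξ)) (fun _ x => v x)
  rw [Fintype.piFinset_univ] at h
  rw [← h]
  simp [hv1]

theorem pc_add (n : ℕ) (v : Ξ → ℝ) (g h : ((Fin n → Bool) → Ξ) → ℝ) :
    pc n v (fun ξ => g ξ + h ξ) = pc n v g + pc n v h := by
  unfold pc
  rw [← Finset.sum_add_distrib]
  exact Finset.sum_congr rfl fun ξ _ => by ring

theorem pc_mul_left (n : ℕ) (v : Ξ → ℝ) (c : ℝ) (g : ((Fin n → Bool) → Ξ) → ℝ) :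
    pc n v (fun ξ => c * g ξ) = c * pc n v g := by
  unfold pc
  rw [Finset.mul_sum]
  exact Finset.sum_congr rfl fun ξ _ => by ring

theorem pc_sum (n : ℕ) (v : Ξ → ℝ) {ι : Type*} (s : Finset ι) (f : ι → ((Fin n → Bool) → Ξ) → ℝ) :
    pc n v (fun ξ => ∑ k ∈ s, f k ξ) = ∑ k ∈ s, pc n v (f k) := by
  unfold pc
  rw [Finset.sum_comm]
  refine Finset.sum_congr rfl fun x _ => ?_
  rw [Finset.mul_sum]

/-- exchange with `pm` -/
theorem pc_pm (n : ℕ) {m : ℕ} (v : Ξ → ℝ) (w : Fin m → X → ℝ) (f : ((Fin n → Bool) → Ξ) → (Fin m → X) → ℝ) :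
    (pc n v fun ξ => pm w fun x => f ξ x) = pm w fun x => pc n v fun ξ => f ξ x := by
  unfold pm pc
  simp only [Finset.mul_sum]
  rw [Finset.sum_comm]
  refine Finset.sum_congr rfl fun x _ => Finset.sum_congr rfl fun z _ => ?_
  ring

/-- the product of means over one coin is the mean over independent coins -/
theorem prod_eq_pc (n : ℕ) (v : Ξ → ℝ) (g : (Fin n → Bool) → Ξ → ℝ) :
    ∏ e : Fin n → Bool, ∑ ξ, v ξ * g e ξ = pc n v fun ξ => ∏ e, g e (ξ e) := by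
  unfold pc
  have h := Finset.prod_univ_sum (fun _ : Fin n → Bool => (univ : Finset Ξ)) (fun e x => v x * g e x)
  rw [Fintype.piFinset_univ] at h
  rw [h]
  exact Finset.sum_congr rfl fun ξ _ => by rw [Finset.prod_mul_distrib]

/-- resampling one coin -/
theorem pc_resample (n : ℕ) (v : Ξ → ℝ) (hv1 : ∑ ξ, v ξ = 1) (e0 : Fin n → Bool) (g : ((Fin n → Bool) → Ξ) → ℝ) :
    pc n v g = pc n v fun ζ => ∑ ξ0, v ξ0 * g (Function.update ζ e0 ξ0) := by
  classical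
  unfold pc
  have h1 : ∀ (f : ((Fin n → Bool) → Ξ) → ℝ), ∑ ζ : (Fin n → Bool) → Ξ, f ζ =
      ∑ a : Ξ, ∑ t : {e : Fin n → Bool // e ≠ e0} → Ξ, f ((Equiv.piSplitAt e0 (fun _ => Ξ)).symm (a, t)) := by
    intro f
    rw [← (Equiv.piSplitAt e0 (fun _ => Ξ)).symm.sum_comp, Fintype.sum_prod_type]
  have h2 : ∀ (a : Ξ) (t : {e : Fin n → Bool // e ≠ e0} → Ξ),
      (∏ e, v ((Equiv.piSplitAt e0 (fun _ => Ξ)).symm (a, t) e)) = v a * ∏ e, v (t e) := by
    intro a t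
    rw [Fintype.prod_eq_mul_prod_subtype_ne _ e0]
    congr 1
    · simp [Equiv.piSplitAt]
    · refine Finset.prod_congr rfl fun e _ => ?_
      simp [Equiv.piSplitAt, e.2]
  have h3 : ∀ (a b : Ξ) (t : {e : Fin n → Bool // e ≠ e0} → Ξ),
      Function.update ((Equiv.piSplitAt e0 (fun _ => Ξ)).symm (a, t)) e0 b =
        (Equiv.piSplitAt e0 (fun _ => Ξ)).symm (b, t) := by
    intro a b t
    funext e
    by_cases he : e = e0
    · subst he
      simp [Equiv.piSplitAt]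
    · rw [Function.update_of_ne he]
      simp [Equiv.piSplitAt, he]
  rw [h1, h1]
  simp only [h2, h3]
  have h4 : ∀ (a : Ξ), ∑ t : {e : Fin n → Bool // e ≠ e0} → Ξ, (v a * ∏ e, v (t e)) *
      ∑ b : Ξ, v b * g ((Equiv.piSplitAt e0 (fun _ => Ξ)).symm (b, t)) =
      v a * ∑ b : Ξ, ∑ t : {e : Fin n → Bool // e ≠ e0} → Ξ, (v b * ∏ e, v (t e)) *
        g ((Equiv.piSplitAt e0 (fun _ => Ξ)).symm (b, t)) := by
    intro a
    rw [Finset.sum_comm, Finset.mul_sum]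
    refine Finset.sum_congr rfl fun t _ => ?_
    rw [Finset.mul_sum, Finset.mul_sum]
    exact Finset.sum_congr rfl fun b _ => by ring
  rw [Finset.sum_congr rfl fun a _ => h4 a, ← Finset.sum_mul, hv1, one_mul]

theorem kapc_nonneg {n : ℕ} (w : Fin n → X → ℝ) (hw : ∀ i x, 0 ≤ w i x) (v : Ξ → ℝ) (hv : ∀ ξ, 0 ≤ v ξ)
    (u : Z → ℝ) (q : ℕ) (f : (Fin n → X) → Ξ → Z → ℝ) : 0 ≤ kapc w v u q f := by
  unfold kapc pm
  refine Finset.sum_nonneg fun x _ => mul_nonneg (Finset.prod_nonneg fun i _ => hw i _) ?_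
  refine Finset.sum_nonneg fun y _ => mul_nonneg (Finset.prod_nonneg fun i _ => hw i _) ?_
  exact pc_nonneg n v hv fun ξ => (even_two_mul q).pow_nonneg _

theorem kapc_eq_pm_box {n : ℕ} (w : Fin n → X → ℝ) (v : Ξ → ℝ) (u : Z → ℝ) (q : ℕ)
    (f : (Fin n → X) → Ξ → Z → ℝ) :
    kapc w v u q f = pm (fun _ : Fin (2 * q) => u) fun zz => box w fun x => ∑ ξ, v ξ * ∏ j, f x ξ (zz j) := by
  unfold kapc box
  rw [pm_comm (fun _ : Fin (2 * q) => u) w]
  refine pm_congr _ fun x => ?_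
  rw [pm_comm (fun _ : Fin (2 * q) => u) w]
  refine pm_congr _ fun y => ?_
  have h1 : ∀ zz : Fin (2 * q) → Z, ∏ e : Fin n → Bool, ∑ ξ, v ξ * ∏ j, f (mixp x y e) ξ (zz j) =
      pc n v fun ξ => ∏ e, ∏ j, f (mixp x y e) (ξ e) (zz j) := fun zz => prod_eq_pc n v _
  rw [pm_congr _ h1, ← pc_pm n v (fun _ : Fin (2 * q) => u)]
  refine pc_congr n v fun ξ => ?_
  rw [sum_pow_eq_pm]
  refine pm_congr _ fun zz => ?_
  rw [Finset.prod_comm]

/-- (GCS) with coins: the tests `H i` do not see the coin of the point -/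
theorem gcs_zc {n : ℕ} (w : Fin n → X → ℝ) (hw : ∀ i x, 0 ≤ w i x) (hs : ∀ i, ∑ x, w i x = 1)
    (v : Ξ → ℝ) (u : Z → ℝ) (hu : ∀ z, 0 ≤ u z) (hu1 : ∑ z, u z = 1) (q : ℕ)
    (f : (Fin n → X) → Ξ → Z → ℝ) (H : Fin n → (Fin n → X) → Z → ℝ) (hH : ∀ i x z, |H i x z| ≤ 1)
    (hI : ∀ i x y, (∀ j, j ≠ i → x j = y j) → ∀ z, H i x z = H i y z) :
    (pm w fun x => ∑ ξ, v ξ * (∑ z, u z * (f x ξ z * ∏ i, H i x z)) ^ (2 * q)) ^ (2 ^ n) ≤ kapc w v u q f := by
  have h1 : (pm w fun x => ∑ ξ, v ξ * (∑ z, u z * (f x ξ z * ∏ i, H i x z)) ^ (2 * q)) =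
      pm (fun _ : Fin (2 * q) => u) fun zz => pm w fun x => (∑ ξ, v ξ * ∏ j, f x ξ (zz j)) *
        ∏ i, ∏ j, H i x (zz j) := by
    rw [pm_comm]
    refine pm_congr _ fun x => ?_
    have h2 : ∀ ξ, (∑ z, u z * (f x ξ z * ∏ i, H i x z)) ^ (2 * q) =
        pm (fun _ : Fin (2 * q) => u) fun zz => (∏ j, f x ξ (zz j)) * ∏ i, ∏ j, H i x (zz j) := by
      intro ξ
      rw [sum_pow_eq_pm]
      refine pm_congr _ fun zz => ?_
      rw [Finset.prod_mul_distrib]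
      congr 1
      rw [Finset.prod_comm]
    rw [Finset.sum_congr rfl fun ξ _ => by rw [h2 ξ, ← pm_mul_left], ← pm_sum]
    refine pm_congr _ fun zz => ?_
    rw [Finset.sum_mul]
    exact Finset.sum_congr rfl fun ξ _ => by ring
  rw [h1, kapc_eq_pm_box]
  refine (jensen_pm _ (fun _ => hu) (fun _ => hu1) _ n).trans (pm_mono _ (fun _ => hu) fun zz => ?_)
  refine gcs n w hw hs _ _ ?_ ?_
  · intro i x
    rw [Finset.abs_prod]
    exact Finset.prod_le_one (fun _ _ => abs_nonneg _) fun j _ => hH _ _ _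
  · intro i x y h
    exact Finset.prod_congr rfl fun j _ => hI i x y h _

/-- Markov form of (GCS) with coins -/
theorem gcs_markovc {n : ℕ} (w : Fin n → X → ℝ) (hw : ∀ i x, 0 ≤ w i x) (hs : ∀ i, ∑ x, w i x = 1)
    (v : Ξ → ℝ) (hv : ∀ ξ, 0 ≤ v ξ) (u : Z → ℝ) (hu : ∀ z, 0 ≤ u z) (hu1 : ∑ z, u z = 1) (q : ℕ)
    (f : (Fin n → X) → Ξ → Z → ℝ) (H : Fin n → (Fin n → X) → Z → ℝ) (hH : ∀ i x z, |H i x z| ≤ 1)
    (hI : ∀ i x y, (∀ j, j ≠ i → x j = y j) → ∀ z, H i x z = H i y z) (s : ℝ) (hs0 : 0 ≤ s) :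
    (s ^ (2 * q) * pm w fun x => ∑ ξ, v ξ *
      (if s ≤ |∑ z, u z * (f x ξ z * ∏ i, H i x z)| then (1 : ℝ) else 0)) ^ (2 ^ n) ≤ kapc w v u q f := by
  refine le_trans ?_ (gcs_zc w hw hs v u hu hu1 q f H hH hI)
  refine pow_le_pow_left₀ ?_ ?_ _
  · refine mul_nonneg (pow_nonneg hs0 _) (Finset.sum_nonneg fun x _ =>
      mul_nonneg (Finset.prod_nonneg fun i _ => hw i _) (Finset.sum_nonneg fun ξ _ => mul_nonneg (hv ξ) ?_))
    split_ifs <;> norm_num
  · rw [← pm_mul_left]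
    refine pm_mono _ hw fun x => ?_
    rw [Finset.mul_sum]
    refine Finset.sum_le_sum fun ξ _ => ?_
    rw [mul_left_comm]
    refine mul_le_mul_of_nonneg_left ?_ (hv ξ)
    split_ifs with h
    · rw [mul_one, ← (even_two_mul q).pow_abs (∑ z, u z * (f x ξ z * ∏ i, H i x z))]
      exact pow_le_pow_left₀ hs0 h _
    · rw [mul_zero]
      exact (even_two_mul q).pow_nonneg _

/-- (PSD) (i) with coins -/
theorem kapc_bit {n : ℕ} (w : Fin n → X → ℝ) (hw : ∀ i x, 0 ≤ w i x) (p : Fin n) (w1 w2 : X → ℝ)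
    (h12 : ∀ x, w p x = (w1 x + w2 x) / 2) (be : ℝ) (v : Ξ → ℝ) (u : Z → ℝ) (hu : ∀ z, 0 ≤ u z) (q : ℕ)
    (f : (Fin n → X) → Ξ → Z → ℝ) :
    (1 - be ^ 2) * kapc w v u q f ≤ (1 + be) / 2 * kapc (Function.update w p w1) v u q f +
      (1 - be) / 2 * kapc (Function.update w p w2) v u q f := by
  rw [kapc_eq_pm_box, kapc_eq_pm_box, kapc_eq_pm_box, ← pm_mul_left, ← pm_mul_left, ← pm_mul_left, ← pm_add]
  exact pm_mono _ (fun _ => hu) fun zz => box_bit w hw p w1 w2 h12 be _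

/-- the real inequality behind (PSD) (ii) -/
theorem win_ineq (q : ℕ) (be S1 S2 : ℝ) (hbe : |be| ≤ 1) :
    (1 - be ^ 2) ^ q * ((S1 + S2) / 2) ^ (2 * q) ≤ (1 + be) / 2 * S1 ^ (2 * q) + (1 - be) / 2 * S2 ^ (2 * q) := by
  obtain ⟨hb1, hb2⟩ := abs_le.1 hbe
  have hJ := Real.pow_arith_mean_le_arith_mean_pow (univ : Finset Bool)
    (fun b => if b then (1 + be) / 2 else (1 - be) / 2) (fun b => if b then S1 ^ 2 else S2 ^ 2)
    (fun b _ => by cases b <;> simp <;> linarith) (by simp; ring) (fun b _ => by cases b <;> simp <;> positivity) q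
  simp only [Fintype.sum_bool, if_true, Bool.false_eq_true, if_false] at hJ
  rw [pow_mul, pow_mul, pow_mul, ← mul_pow]
  refine le_trans (pow_le_pow_left₀ ?_ ?_ q) hJ
  · have : be ^ 2 ≤ 1 := by nlinarith
    exact mul_nonneg (by linarith) (sq_nonneg _)
  · nlinarith [sq_nonneg ((S1 - S2) / 2 + be * ((S1 + S2) / 2))]

/-- (PSD) (ii) with coins -/
theorem kapc_win {n : ℕ} (w : Fin n → X → ℝ) (hw : ∀ i x, 0 ≤ w i x) (v : Ξ → ℝ) (hv : ∀ ξ, 0 ≤ v ξ)
    (u u1 u2 : Z → ℝ) (h12 : ∀ z, u z = (u1 z + u2 z) / 2) (be : ℝ) (hbe : |be| ≤ 1) (q : ℕ)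
    (f : (Fin n → X) → Ξ → Z → ℝ) :
    (1 - be ^ 2) ^ q * kapc w v u q f ≤ (1 + be) / 2 * kapc w v u1 q f + (1 - be) / 2 * kapc w v u2 q f := by
  unfold kapc
  rw [← pm_mul_left, ← pm_mul_left, ← pm_mul_left, ← pm_add]
  refine pm_mono _ hw fun x => ?_
  rw [← pm_mul_left, ← pm_mul_left, ← pm_mul_left, ← pm_add]
  refine pm_mono _ hw fun y => ?_
  rw [← pc_mul_left, ← pc_mul_left, ← pc_mul_left, ← pc_add]
  refine pc_mono n v hv fun ξ => ?_
  have hS : ∑ z, u z * ∏ e : Fin n → Bool, f (mixp x y e) (ξ e) z =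
      ((∑ z, u1 z * ∏ e : Fin n → Bool, f (mixp x y e) (ξ e) z) +
        ∑ z, u2 z * ∏ e : Fin n → Bool, f (mixp x y e) (ξ e) z) / 2 := by
    rw [← Finset.sum_add_distrib, Finset.sum_div]
    exact Finset.sum_congr rfl fun a _ => by rw [h12]; ring
  rw [hS]
  exact win_ineq q be _ _ hbe

/-- (RAR), general form: the product `F κ x ξ z * G b x ξ z` is tested by coin free functions which miss one
coordinate each; hot values against an average are rare in `b` -/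
theorem rarc {n : ℕ} {ι B : Type*} (w : Fin n → X → ℝ) (hw : ∀ i x, 0 ≤ w i x) (hs : ∀ i, ∑ x, w i x = 1)
    (v : Ξ → ℝ) (hv : ∀ ξ, 0 ≤ v ξ) (hv1 : ∑ ξ, v ξ = 1)
    (u : Z → ℝ) (hu : ∀ z, 0 ≤ u z) (hu1 : ∑ z, u z = 1) (q : ℕ)
    (f : ι → B → (Fin n → X) → Ξ → Z → ℝ) (hf : ∀ κ b x ξ z, |f κ b x ξ z| ≤ 1)
    (I : Finset ι) (p : ι → ℝ) (hp : ∀ κ ∈ I, 0 ≤ p κ) (hp1 : ∑ κ ∈ I, p κ = 1) (β : Finset B)
    (eps0 th r' : ℝ) (hr : 2 * eps0 ^ (2 * q) ≤ r') (hr0 : 0 < r')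
    (hPT : ∀ κ ∈ I, ∀ (g : Fin n → B → (Fin n → X) → Z → ℝ), (∀ i b x z, |g i b x z| ≤ 1) →
      (∀ i b x y, (∀ j, j ≠ i → x j = y j) → ∀ z, g i b x z = g i b y z) →
      ∑ b ∈ β, pm w (fun x => ∑ ξ, v ξ *
        (if eps0 < |∑ z, u z * (f κ b x ξ z * ∏ i, g i b x z)| then (1 : ℝ) else 0)) ≤ th * (β.card : ℝ)) :
    ((β.filter fun b => r' ≤ ∑ κ ∈ I, p κ * kapc w v u q (f κ b)).card : ℝ) ≤ 2 * th / r' * (β.card : ℝ) := by
  classical
  set Y : ι → B → (Fin n → X) → (Fin n → X) → ((Fin n → Bool) → Ξ) → ℝ := fun κ b x y ξ =>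
    ∑ z, u z * ∏ e : Fin n → Bool, f κ b (mixp x y e) (ξ e) z with hY
  set ch : ι → B → (Fin n → X) → (Fin n → X) → ((Fin n → Bool) → Ξ) → ℝ := fun κ b x y ξ =>
    if eps0 < |Y κ b x y ξ| then (1 : ℝ) else 0 with hch
  set big : ι → B → ℝ := fun κ b => pm w fun y => pm w fun x => pc n v fun ξ => ch κ b x y ξ with hbig
  have hY1 : ∀ κ b x y ξ, |Y κ b x y ξ| ≤ 1 := by
    intro κ b x y ξ
    rw [hY]
    refine (Finset.abs_sum_le_sum_abs _ _).trans ?_
    rw [← hu1]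
    refine Finset.sum_le_sum fun z _ => ?_
    rw [abs_mul, abs_of_nonneg (hu z), Finset.abs_prod]
    exact mul_le_of_le_one_right (hu z) (Finset.prod_le_one (fun _ _ => abs_nonneg _) fun e _ => hf _ _ _ _ _)
  have hch0 : ∀ κ b x y ξ, 0 ≤ ch κ b x y ξ := by
    intro κ b x y ξ
    rw [hch]
    beta_reduce
    split_ifs <;> norm_num
  have hk : ∀ κ b, kapc w v u q (f κ b) ≤ eps0 ^ (2 * q) + big κ b := by
    intro κ b
    have h1 : kapc w v u q (f κ b) ≤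
        pm w fun x => pm w fun y => pc n v fun ξ => (eps0 ^ (2 * q) + ch κ b x y ξ) := by
      unfold kapc
      refine pm_mono _ hw fun x => pm_mono _ hw fun y => pc_mono n v hv fun ξ => ?_
      rw [← (even_two_mul q).pow_abs, hch]
      beta_reduce
      split_ifs with h2
      · have := pow_le_one₀ (n := 2 * q) (abs_nonneg _) (hY1 κ b x y ξ)
        have h3 : 0 ≤ eps0 ^ (2 * q) := (even_two_mul q).pow_nonneg _
        linarith
      · rw [add_zero]
        exact pow_le_pow_left₀ (abs_nonneg _) (not_lt.1 h2) _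
    refine h1.trans (le_of_eq ?_)
    simp only [pc_add, pm_add, pc_const n v hv1, pm_const w hs]
    congr 1
    exact pm_comm w w fun x y => pc n v fun ξ => ch κ b x y ξ
  have hbn : ∀ κ b, 0 ≤ big κ b := by
    intro κ b
    rw [hbig]
    simp only
    refine Finset.sum_nonneg fun y _ => mul_nonneg (Finset.prod_nonneg fun i _ => hw i _) ?_
    refine Finset.sum_nonneg fun x _ => mul_nonneg (Finset.prod_nonneg fun i _ => hw i _) ?_
    exact pc_nonneg n v hv fun ξ => hch0 κ b x y ξ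
  have hbig0 : ∀ κ ∈ I, ∑ b ∈ β, big κ b ≤ th * (β.card : ℝ) := by
    intro κ hκ
    rw [hbig]
    simp only
    rw [← pm_sum]
    have hc : th * (β.card : ℝ) = pm w fun _ => th * (β.card : ℝ) := (pm_const w hs _).symm
    rw [hc]
    refine pm_mono _ hw fun y => ?_
    -- for fixed `y` and fixed coins of the copies other than `e = 0`
    have key : ∀ ζ : (Fin n → Bool) → Ξ, ∑ b ∈ β, pm w (fun x => ∑ ξ0, v ξ0 *
        ch κ b x y (Function.update ζ (fun _ => false) ξ0)) ≤ th * (β.card : ℝ) := by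
      intro ζ
      have h4 := hPT κ hκ (fun i b x z => ∏ e : Fin n → Bool,
        if e i = true ∧ ∀ j < i, e j = false then f κ b (mixp x y e) (ζ e) z else 1) ?_ ?_
      · refine le_trans (Finset.sum_le_sum fun b _ => pm_mono _ hw fun x => ?_) h4
        refine Finset.sum_le_sum fun ξ0 _ => mul_le_mul_of_nonneg_left ?_ (hv ξ0)
        have h5 : Y κ b x y (Function.update ζ (fun _ => false) ξ0) = ∑ z, u z * (f κ b x ξ0 z *
            ∏ i : Fin n, ∏ e : Fin n → Bool,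
            if e i = true ∧ ∀ j < i, e j = false then f κ b (mixp x y e) (ζ e) z else 1) := by
          rw [hY]
          refine Finset.sum_congr rfl fun z _ => ?_
          rw [prod_first]
          have h6 : mixp x y (fun _ => false) = x := by
            funext i
            simp [mixp]
          rw [h6, Function.update_self]
          congr 2
          refine Finset.prod_congr rfl fun i _ => Finset.prod_congr rfl fun e _ => ?_
          by_cases h7 : e i = true ∧ ∀ j < i, e j = false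
          · rw [if_pos h7, if_pos h7, Function.update_of_ne]
            intro h8
            rw [h8] at h7
            simp at h7
          · rw [if_neg h7, if_neg h7]
        rw [hch]
        beta_reduce
        rw [h5]
      · intro i b x z
        rw [Finset.abs_prod]
        refine Finset.prod_le_one (fun _ _ => abs_nonneg _) fun e _ => ?_
        split_ifs
        · exact hf _ _ _ _ _
        · simp
      · intro i b x x' hx z
        refine Finset.prod_congr rfl fun e _ => ?_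
        by_cases h7 : e i = true ∧ ∀ j < i, e j = false
        · rw [if_pos h7, if_pos h7]
          have h8 : mixp x y e = mixp x' y e := by
            funext j
            by_cases hj : j = i
            · rw [hj]
              simp [mixp, h7.1]
            · simp only [mixp]
              rw [hx j hj]
          rw [h8]
        · rw [if_neg h7, if_neg h7]
    -- resampling the coin of the copy `e = 0`
    have hres : ∀ b x, pc n v (fun ξ => ch κ b x y ξ) =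
        pc n v fun ζ => ∑ ξ0, v ξ0 * ch κ b x y (Function.update ζ (fun _ => false) ξ0) := by
      intro b x
      exact pc_resample n v hv1 _ _
    have h9 : ∑ b ∈ β, pm w (fun x => pc n v fun ξ => ch κ b x y ξ) =
        pc n v fun ζ => ∑ b ∈ β, pm w (fun x => ∑ ξ0, v ξ0 *
          ch κ b x y (Function.update ζ (fun _ => false) ξ0)) := by
      rw [pc_sum]
      refine Finset.sum_congr rfl fun b _ => ?_
      rw [pc_pm]
      exact pm_congr _ fun x => hres b x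
    rw [h9]
    exact (pc_mono n v hv key).trans_eq (pc_const n v hv1 _)
  have hT : ∀ b, ∑ κ ∈ I, p κ * kapc w v u q (f κ b) ≤ eps0 ^ (2 * q) + ∑ κ ∈ I, p κ * big κ b := by
    intro b
    calc ∑ κ ∈ I, p κ * kapc w v u q (f κ b) ≤ ∑ κ ∈ I, p κ * (eps0 ^ (2 * q) + big κ b) :=
          Finset.sum_le_sum fun κ hκ => mul_le_mul_of_nonneg_left (hk κ b) (hp κ hκ)
      _ = eps0 ^ (2 * q) + ∑ κ ∈ I, p κ * big κ b := by
          simp only [mul_add, Finset.sum_add_distrib]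
          rw [← Finset.sum_mul, hp1, one_mul]
  have hmain : ((β.filter fun b => r' ≤ ∑ κ ∈ I, p κ * kapc w v u q (f κ b)).card : ℝ) * (r' / 2) ≤
      th * (β.card : ℝ) := by
    calc ((β.filter fun b => r' ≤ ∑ κ ∈ I, p κ * kapc w v u q (f κ b)).card : ℝ) * (r' / 2)
        = ∑ b ∈ β.filter (fun b => r' ≤ ∑ κ ∈ I, p κ * kapc w v u q (f κ b)), r' / 2 := by
          rw [Finset.sum_const, nsmul_eq_mul]
      _ ≤ ∑ b ∈ β.filter (fun b => r' ≤ ∑ κ ∈ I, p κ * kapc w v u q (f κ b)), ∑ κ ∈ I, p κ * big κ b := by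
          refine Finset.sum_le_sum fun b hb => ?_
          have h9 := (Finset.mem_filter.1 hb).2
          have h10 := hT b
          linarith
      _ ≤ ∑ b ∈ β, ∑ κ ∈ I, p κ * big κ b :=
          Finset.sum_le_sum_of_subset_of_nonneg (Finset.filter_subset _ _) fun b _ _ =>
            Finset.sum_nonneg fun κ hκ => mul_nonneg (hp κ hκ) (hbn κ b)
      _ = ∑ κ ∈ I, p κ * ∑ b ∈ β, big κ b := by
          rw [Finset.sum_comm]
          simp only [Finset.mul_sum]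
      _ ≤ ∑ κ ∈ I, p κ * (th * (β.card : ℝ)) :=
          Finset.sum_le_sum fun κ hκ => mul_le_mul_of_nonneg_left (hbig0 κ hκ) (hp κ hκ)
      _ = th * (β.card : ℝ) := by rw [← Finset.sum_mul, hp1, one_mul]
  rw [div_mul_eq_mul_div, le_div_iff₀ hr0]
  linarith

/-! ## the Hilbert form with coins -/

/-- points of `Omhat` with coins -/
abbrev Ohc (X Ξ Z : Type*) (n q : ℕ) := ((Fin n → X) × (Fin n → X)) × (((Fin n → Bool) → Ξ) × (Fin (2 * q) → Z))

/-- weight of a point -/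
noncomputable def whc {n : ℕ} (w : Fin n → X → ℝ) (v : Ξ → ℝ) (u : Z → ℝ) (q : ℕ) (ω : Ohc X Ξ Z n q) : ℝ :=
  ((∏ i, w i (ω.1.1 i)) * (∏ i, w i (ω.1.2 i))) * ((∏ e, v (ω.2.1 e)) * ∏ j, u (ω.2.2 j))

/-- the hatted face with coins -/
noncomputable def hatc {n : ℕ} (q : ℕ) (f : (Fin n → X) → Ξ → Z → ℝ) (ω : Ohc X Ξ Z n q) : ℝ :=
  ∏ e : Fin n → Bool, ∏ j, f (mixp ω.1.1 ω.1.2 e) (ω.2.1 e) (ω.2.2 j)

/-- inner product -/
noncomputable def ipc {n : ℕ} (w : Fin n → X → ℝ) (v : Ξ → ℝ) (u : Z → ℝ) (q : ℕ) (g h : Ohc X Ξ Z n q → ℝ) : ℝ :=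
  ∑ ω, whc w v u q ω * (g ω * h ω)

omit [Fintype X] [Fintype Z] [Fintype Ξ] in
theorem hatc_mul {n : ℕ} (q : ℕ) (f g : (Fin n → X) → Ξ → Z → ℝ) (ω : Ohc X Ξ Z n q) :
    hatc q (fun x ξ z => f x ξ z * g x ξ z) ω = hatc q f ω * hatc q g ω := by
  unfold hatc
  simp only [Finset.prod_mul_distrib]

omit [Fintype X] [Fintype Z] [Fintype Ξ] in
theorem hatc_abs {n : ℕ} (q : ℕ) (f : (Fin n → X) → Ξ → Z → ℝ) (hf : ∀ x ξ z, |f x ξ z| ≤ 1)
    (ω : Ohc X Ξ Z n q) : |hatc q f ω| ≤ 1 := by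
  unfold hatc
  rw [Finset.abs_prod]
  refine Finset.prod_le_one (fun _ _ => abs_nonneg _) fun e _ => ?_
  rw [Finset.abs_prod]
  exact Finset.prod_le_one (fun _ _ => abs_nonneg _) fun e _ => hf _ _ _

theorem sum_whc {n : ℕ} (w : Fin n → X → ℝ) (v : Ξ → ℝ) (u : Z → ℝ) (q : ℕ) (g : Ohc X Ξ Z n q → ℝ) :
    ∑ ω, whc w v u q ω * g ω = pm w fun x => pm w fun y => pc n v fun ξ =>
      pm (fun _ : Fin (2 * q) => u) fun zz => g ((x, y), (ξ, zz)) := by
  unfold whc pm pc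
  rw [Fintype.sum_prod_type, Fintype.sum_prod_type]
  refine Finset.sum_congr rfl fun x _ => ?_
  rw [Finset.mul_sum]
  refine Finset.sum_congr rfl fun y _ => ?_
  rw [Fintype.sum_prod_type, Finset.mul_sum, Finset.mul_sum]
  refine Finset.sum_congr rfl fun ξ _ => ?_
  rw [Finset.mul_sum, Finset.mul_sum, Finset.mul_sum]
  refine Finset.sum_congr rfl fun zz _ => ?_
  ring

/-- the kernel with coins is the inner product of the hats -/
theorem ipc_hatc {n : ℕ} (w : Fin n → X → ℝ) (v : Ξ → ℝ) (u : Z → ℝ) (q : ℕ) (f g : (Fin n → X) → Ξ → Z → ℝ) :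
    ipc w v u q (hatc q f) (hatc q g) = kapc w v u q fun x ξ z => f x ξ z * g x ξ z := by
  unfold ipc
  rw [sum_whc]
  unfold kapc
  refine pm_congr _ fun x => pm_congr _ fun y => pc_congr n v fun ξ => ?_
  rw [sum_pow_eq_pm]
  refine pm_congr _ fun zz => ?_
  rw [← hatc_mul]
  unfold hatc
  rw [Finset.prod_comm]

end Pool.Agent.GM99
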